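import Mathlib

/-!
# GA: discrete Gaussian sums over relation cosets

`Z q A g` is the sum of `q ^ (∑ z_a ^ 2)` over all integer vectors `z` on `A` with `∑ z_a a = g`,
built one element at a time: `T q v` is the operator for one element.
-/

open scoped ENNReal

namespace Pool.Agent.GLL

variable {G : Type*} [AddCommGroup G]

/-- Gaussian digits in the residue class of `a` modulo `m` for the element `v`. -/
noncomputable def R (q : ℝ≥0∞) (m a : ℤ) (v : G) (F : G → ℝ≥0∞) (g : G) : ℝ≥0∞ :=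
  ∑' k : ℤ, q ^ ((m * k + a).natAbs ^ 2) * F (g - (m * k + a) • v)

/-- Gaussian digits for the element `v`. -/
noncomputable def T (q : ℝ≥0∞) (v : G) (F : G → ℝ≥0∞) (g : G) : ℝ≥0∞ :=
  ∑' c : ℤ, q ^ (c.natAbs ^ 2) * F (g - c • v)

theorem T_comm (q : ℝ≥0∞) (v w : G) (F : G → ℝ≥0∞) : T q v (T q w F) = T q w (T q v F) := by
  funext g
  unfold T
  simp_rw [← ENNReal.tsum_mul_left]
  rw [ENNReal.tsum_comm]
  refine tsum_congr fun c => tsum_congr fun d => ?_
  rw [show g - d • v - c • w = g - c • w - d • v by abel]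
  ring

instance (q : ℝ≥0∞) : LeftCommutative (T (G := G) q) := ⟨fun v w F => T_comm q v w F⟩

/-- The point mass at `0`. -/
noncomputable def pt (g : G) : ℝ≥0∞ := by classical exact if g = 0 then 1 else 0

/-- The Gaussian sum of the coset of the relation lattice of `A` which belongs to `g`. -/
noncomputable def Z (q : ℝ≥0∞) (A : Finset G) : G → ℝ≥0∞ := Multiset.foldr (T q) pt A.val

theorem Z_empty (q : ℝ≥0∞) : Z q (∅ : Finset G) = pt := rfl

theorem Z_insert [DecidableEq G] (q : ℝ≥0∞) {v : G} {A : Finset G} (h : v ∉ A) :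
    Z q (insert v A) = T q v (Z q A) := by
  unfold Z
  rw [Finset.insert_val_of_notMem h, Multiset.foldr_cons]

theorem pt_zero : pt (0 : G) = 1 := by simp [pt]

theorem pt_neg (g : G) : pt (-g) = pt g := by
  unfold pt
  by_cases h : g = 0
  · simp [h]
  · rw [if_neg h, if_neg (neg_ne_zero.2 h)]

theorem pt_of_ne {g : G} (h : g ≠ 0) : pt g = 0 := by simp [pt, h]

theorem T_neg (q : ℝ≥0∞) (v : G) {F : G → ℝ≥0∞} (hF : ∀ g, F (-g) = F g) (g : G) :
    T q v F (-g) = T q v F g := by
  unfold T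
  rw [← (Equiv.neg ℤ).tsum_eq]
  refine tsum_congr fun c => ?_
  simp only [Equiv.neg_apply, Int.natAbs_neg, neg_smul]
  rw [show -g - -(c • v) = -(g - c • v) by abel, hF]

theorem Z_neg (q : ℝ≥0∞) (A : Finset G) (g : G) : Z q A (-g) = Z q A g := by
  classical
  induction A using Finset.induction_on generalizing g with
  | empty => rw [Z_empty]; exact pt_neg g
  | insert v A hv ih => rw [Z_insert q hv]; exact T_neg q v ih g

/-- Total mass of one digit. -/
noncomputable def th (q : ℝ≥0∞) : ℝ≥0∞ := ∑' c : ℤ, q ^ (c.natAbs ^ 2)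

theorem mass_T (q : ℝ≥0∞) (v : G) (F : G → ℝ≥0∞) :
    ∑' g, T q v F g = th q * ∑' g, F g := by
  unfold T th
  rw [ENNReal.tsum_comm, ← ENNReal.tsum_mul_right]
  refine tsum_congr fun c => ?_
  rw [ENNReal.tsum_mul_left]
  congr 1
  exact (Equiv.subRight (c • v)).tsum_eq F

theorem mass_pt : ∑' g : G, pt g = 1 := by
  rw [tsum_eq_single 0 fun g hg => pt_of_ne hg, pt_zero]

theorem mass_Z (q : ℝ≥0∞) (A : Finset G) : ∑' g, Z q A g = th q ^ A.card := by
  classical
  induction A using Finset.induction_on with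
  | empty => rw [Z_empty, mass_pt]; simp
  | insert v A hv ih =>
    rw [Z_insert q hv, mass_T, ih, Finset.card_insert_of_notMem hv, pow_succ, mul_comm]

theorem le_T (q : ℝ≥0∞) (v : G) (F : G → ℝ≥0∞) (g : G) (c : ℤ) :
    q ^ (c.natAbs ^ 2) * F (g - c • v) ≤ T q v F g := by
  unfold T
  exact ENNReal.le_tsum (f := fun c : ℤ => q ^ (c.natAbs ^ 2) * F (g - c • v)) c

theorem one_le_Z (q : ℝ≥0∞) (A : Finset G) : 1 ≤ Z q A 0 := by
  classical
  induction A using Finset.induction_on with
  | empty => rw [Z_empty, pt_zero]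
  | insert v A hv ih =>
    rw [Z_insert q hv]
    refine ih.trans ?_
    have := le_T q v (Z q A) 0 0
    simpa using this

theorem Z_le (q : ℝ≥0∞) (A : Finset G) (g : G) : Z q A g ≤ th q ^ A.card := by
  rw [← mass_Z]
  exact ENNReal.le_tsum g

end Pool.Agent.GLL
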