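import Pool.Agent.GLL.GA

/-!
# GB: rotation by 45 degrees

`rot`: a product of two residue class operators is a sum over residue classes for twice the modulus.
`Pk`: the decomposition which gives the inequality of Regev and Stephens-Davidowitz and the power
decay of the coset masses.
-/

open scoped ENNReal

namespace Pool.Agent.GLL

variable {G : Type*} [AddCommGroup G]

/-- `0` or `1`. -/
def bz (b : Bool) : ℤ := if b then 1 else 0

theorem rot {κ : Type*} [Fintype κ] (ρ : ℝ≥0∞) (m a m' a' M : ℤ) (τ τ' : Bool → ℤ)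
    (Φ : Bool × ℤ × ℤ ≃ ℤ × ℤ)
    (h1 : ∀ e p p', (m * (Φ (e, p, p')).1 + a) + (m' * (Φ (e, p, p')).2 + a') = M * p + τ e)
    (h2 : ∀ e p p', (m * (Φ (e, p, p')).1 + a) - (m' * (Φ (e, p, p')).2 + a') = M * p' + τ' e)
    (v : G) {F H : G → ℝ≥0∞} {V W : κ → G → ℝ≥0∞}
    (h : ∀ x y, F x * H y = ∑ j, V j (x + y) * W j (x - y)) (x y : G) :
    R (ρ ^ 2) m a v F x * R (ρ ^ 2) m' a' v H y =
      ∑ i : κ × Bool, R ρ M (τ i.2) v (V i.1) (x + y) * R ρ M (τ' i.2) v (W i.1) (x - y) := by
  have e1 : R (ρ ^ 2) m a v F x * R (ρ ^ 2) m' a' v H y =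
      ∑' kl : ℤ × ℤ, (ρ ^ 2) ^ ((m * kl.1 + a).natAbs ^ 2) * (ρ ^ 2) ^ ((m' * kl.2 + a').natAbs ^ 2) *
        (F (x - (m * kl.1 + a) • v) * H (y - (m' * kl.2 + a') • v)) := by
    unfold R
    rw [← ENNReal.tsum_mul_right, ENNReal.tsum_prod']
    refine tsum_congr fun k => ?_
    rw [← ENNReal.tsum_mul_left]
    refine tsum_congr fun l => ?_
    ring
  rw [e1, ← Φ.tsum_eq, ENNReal.tsum_prod', tsum_fintype, Fintype.sum_prod_type, Finset.sum_comm]
  refine Finset.sum_congr rfl fun e _ => ?_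
  have e2 : ∀ i : κ, R ρ M (τ e) v (V i) (x + y) * R ρ M (τ' e) v (W i) (x - y) =
      ∑' pp : ℤ × ℤ, ρ ^ ((M * pp.1 + τ e).natAbs ^ 2) * ρ ^ ((M * pp.2 + τ' e).natAbs ^ 2) *
        (V i (x + y - (M * pp.1 + τ e) • v) * W i (x - y - (M * pp.2 + τ' e) • v)) := by
    intro i
    unfold R
    rw [← ENNReal.tsum_mul_right, ENNReal.tsum_prod']
    refine tsum_congr fun k => ?_
    rw [← ENNReal.tsum_mul_left]
    refine tsum_congr fun l => ?_
    ring
  simp_rw [e2]
  rw [← Summable.tsum_finsetSum (fun i _ => ENNReal.summable)]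
  refine tsum_congr fun pp => ?_
  obtain ⟨p, p'⟩ := pp
  rw [← Finset.mul_sum]
  have g1 := h1 e p p'
  have g2 := h2 e p p'
  rw [h]
  congr 1
  · rw [← pow_mul, ← pow_mul, ← pow_add, ← pow_add]
    congr 1
    have : ((2 * (m * (Φ (e, p, p')).1 + a).natAbs ^ 2 + 2 * (m' * (Φ (e, p, p')).2 + a').natAbs ^ 2 : ℕ) : ℤ)
        = (((M * p + τ e).natAbs ^ 2 + (M * p' + τ' e).natAbs ^ 2 : ℕ) : ℤ) := by
      push_cast
      simp only [sq_abs]
      rw [← g1, ← g2]
      ring
    exact_mod_cast this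
  · refine Finset.sum_congr rfl fun j _ => ?_
    rw [← g1, ← g2]
    generalize m * (Φ (e, p, p')).1 + a = u
    generalize m' * (Φ (e, p, p')).2 + a' = w
    rw [add_smul, sub_smul, show x - u • v + (y - w • v) = x + y - (u • v + w • v) by abel,
      show x - u • v - (y - w • v) = x - y - (u • v - w • v) by abel]

/-- First reindexing: `(e, p, p') ↦ (p + p' + e, p - p')`. -/
def Φ1 : Bool × ℤ × ℤ ≃ ℤ × ℤ where
  toFun x := (x.2.1 + x.2.2 + bz x.1, x.2.1 - x.2.2)
  invFun y := (decide ((y.1 + y.2) % 2 = 1), (y.1 + y.2) / 2, (y.1 + y.2) / 2 - y.2)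
  left_inv := by
    rintro ⟨e, p, p'⟩
    cases e
    · simp only [bz, Bool.false_eq_true, if_false, Prod.mk.injEq]
      refine ⟨?_, ?_, ?_⟩
      · simp only [decide_eq_false_iff_not]; omega
      · omega
      · omega
    · simp only [bz, if_true, Prod.mk.injEq]
      refine ⟨?_, ?_, ?_⟩
      · simp only [decide_eq_true_eq]; omega
      · omega
      · omega
  right_inv := by
    rintro ⟨k, l⟩
    simp only [bz, decide_eq_true_eq, Prod.mk.injEq]
    constructor
    · split_ifs <;> omega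
    · omega

/-- Second reindexing: `(e, p, p') ↦ (p + p', p - p' + e)`. -/
def Φ2 : Bool × ℤ × ℤ ≃ ℤ × ℤ where
  toFun x := (x.2.1 + x.2.2, x.2.1 - x.2.2 + bz x.1)
  invFun y := (decide ((y.1 + y.2) % 2 = 1), (y.1 + y.2) / 2, y.1 - (y.1 + y.2) / 2)
  left_inv := by
    rintro ⟨e, p, p'⟩
    cases e
    · simp only [bz, Bool.false_eq_true, if_false, Prod.mk.injEq]
      refine ⟨?_, ?_, ?_⟩
      · simp only [decide_eq_false_iff_not]; omega
      · omega
      · omega
    · simp only [bz, if_true, Prod.mk.injEq]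
      refine ⟨?_, ?_, ?_⟩
      · simp only [decide_eq_true_eq]; omega
      · omega
      · omega
  right_inv := by
    rintro ⟨k, l⟩
    simp only [bz, decide_eq_true_eq, Prod.mk.injEq]
    constructor
    · omega
    · split_ifs <;> omega

/-- Third reindexing: `(e, p, p') ↦ (p + p' - e - b, p - p')`. -/
def Φ3 (b : ℤ) : Bool × ℤ × ℤ ≃ ℤ × ℤ where
  toFun x := (x.2.1 + x.2.2 - bz x.1 - b, x.2.1 - x.2.2)
  invFun y := (decide ((y.1 + y.2 + b) % 2 = 1), (y.1 + y.2 + b + 1) / 2,
    (y.1 + y.2 + b + 1) / 2 - y.2)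
  left_inv := by
    rintro ⟨e, p, p'⟩
    cases e
    · simp only [bz, Bool.false_eq_true, if_false, Prod.mk.injEq]
      refine ⟨?_, ?_, ?_⟩
      · simp only [decide_eq_false_iff_not]; omega
      · omega
      · omega
    · simp only [bz, if_true, Prod.mk.injEq]
      refine ⟨?_, ?_, ?_⟩
      · simp only [decide_eq_true_eq]; omega
      · omega
      · omega
  right_inv := by
    rintro ⟨k, l⟩
    simp only [bz, decide_eq_true_eq, Prod.mk.injEq]
    constructor
    · split_ifs <;> omega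
    · omega

theorem T_eq_R (q : ℝ≥0∞) (v : G) (F : G → ℝ≥0∞) : T q v F = R q 1 0 v F := by
  funext g
  unfold T R
  simp

/-- The decomposition at three scales. -/
def Pk (σ : ℝ≥0∞) (A : Finset G) : Prop :=
  ∃ (ι : Type) (_ : Fintype ι) (i0 : ι) (U : ι → G → ℝ≥0∞),
    (∀ x y, Z (σ ^ 4) A x * Z (σ ^ 4) A y = ∑ i, U i (x + y) * U i (x - y)) ∧
    (∀ g, Z (σ ^ 8) A g = U i0 (2 • g)) ∧
    ∀ i, ∃ (κ : Type) (_ : Fintype κ) (V W : κ → G → ℝ≥0∞),
      (∀ x y, U i0 x * U i y = ∑ j, V j (x + y) * W j (x - y)) ∧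
      (∀ x y, U i x * U i0 y = ∑ j, V j (x + y) * V j (x - y)) ∧
      (∀ x y, U i x * U i0 y = ∑ j, W j (x + y) * W j (x - y))

theorem two_smul_eq_zero_iff' [IsAddTorsionFree G] (g : G) : (2 : ℕ) • g = 0 ↔ g = 0 := by
  constructor
  · intro h
    exact (smul_eq_zero.1 h).resolve_left (by norm_num)
  · intro h
    rw [h, smul_zero]

theorem pt_mul [IsAddTorsionFree G] (x y : G) : pt x * pt y = pt (x + y) * pt (x - y) := by
  by_cases hx : x = 0
  · subst hx
    by_cases hy : y = 0
    · subst hy; simp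
    · rw [zero_add, zero_sub, pt_of_ne hy]; simp
  · by_cases hy : x + y = 0
    · have h2 : x - y ≠ 0 := by
        intro h
        apply hx
        have : (2 : ℕ) • x = 0 := by
          rw [two_nsmul, show x + x = (x + y) + (x - y) by abel, hy, h, add_zero]
        exact (two_smul_eq_zero_iff' x).1 this
      rw [pt_of_ne hx, pt_of_ne h2]; simp
    · rw [pt_of_ne hx, pt_of_ne hy]; simp

theorem pk [IsAddTorsionFree G] (σ : ℝ≥0∞) (A : Finset G) : Pk σ A := by
  classical
  induction A using Finset.induction_on with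
  | empty =>
    refine ⟨Unit, inferInstance, (), fun _ => pt, ?_, ?_, ?_⟩
    · intro x y
      rw [Z_empty, pt_mul]
      simp
    · intro g
      rw [Z_empty]
      by_cases hg : g = 0
      · subst hg; simp
      · show pt g = pt (2 • g)
        rw [pt_of_ne hg, pt_of_ne]
        rwa [Ne, two_smul_eq_zero_iff']
    · intro _
      refine ⟨Unit, inferInstance, fun _ => pt, fun _ => pt, ?_, ?_, ?_⟩ <;>
      · intro x y
        rw [pt_mul]
        simp
  | insert v A hv ih =>
    obtain ⟨ι, hι, i0, U, hU1, hU2, hU3⟩ := ih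
    refine ⟨ι × Bool, inferInstance, (i0, false), fun i => R (σ ^ 2) 2 (bz i.2) v (U i.1), ?_, ?_, ?_⟩
    · intro x y
      rw [Z_insert _ hv, T_eq_R, show σ ^ 4 = (σ ^ 2) ^ 2 by ring]
      refine rot (σ ^ 2) 1 0 1 0 2 bz bz Φ1 ?_ ?_ v ?_ x y
      · intro e p p'
        simp only [Φ1, Equiv.coe_fn_mk]
        ring
      · intro e p p'
        simp only [Φ1, Equiv.coe_fn_mk]
        ring
      · intro x y
        rw [show (σ ^ 2) ^ 2 = σ ^ 4 by ring]
        exact hU1 x y
    · intro g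
      rw [Z_insert _ hv]
      unfold T R
      refine tsum_congr fun c => ?_
      simp only [bz, Bool.false_eq_true, if_false, add_zero]
      rw [hU2]
      congr 1
      · rw [← pow_mul, ← pow_mul]
        congr 1
        rw [Int.natAbs_mul]
        simp only [Int.reduceAbs]
        ring
      · congr 1
        rw [smul_sub, mul_smul]
        congr 1
        rw [two_nsmul, two_smul]
    · rintro ⟨i, b⟩
      obtain ⟨κ, hκ, V, W, h1, h2, h3⟩ := hU3 i
      refine ⟨κ × Bool, inferInstance, fun j => R σ 4 (bz b + 2 * bz j.2) v (V j.1),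
        fun j => R σ 4 (-(bz b + 2 * bz j.2)) v (W j.1), ?_, ?_, ?_⟩
      · intro x y
        refine rot σ 2 (bz false) 2 (bz b) 4 (fun e => bz b + 2 * bz e)
          (fun e => -(bz b + 2 * bz e)) Φ2 ?_ ?_ v h1 x y
        · intro e p p'
          simp only [Φ2, Equiv.coe_fn_mk, bz, Bool.false_eq_true, if_false]
          ring
        · intro e p p'
          simp only [Φ2, Equiv.coe_fn_mk, bz, Bool.false_eq_true, if_false]
          ring
      · intro x y
        refine rot σ 2 (bz b) 2 (bz false) 4 (fun e => bz b + 2 * bz e)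
          (fun e => bz b + 2 * bz e) Φ1 ?_ ?_ v h2 x y
        · intro e p p'
          simp only [Φ1, Equiv.coe_fn_mk, bz, Bool.false_eq_true, if_false]
          ring
        · intro e p p'
          simp only [Φ1, Equiv.coe_fn_mk, bz, Bool.false_eq_true, if_false]
          ring
      · intro x y
        refine rot σ 2 (bz b) 2 (bz false) 4 (fun e => -(bz b + 2 * bz e))
          (fun e => -(bz b + 2 * bz e)) (Φ3 (bz b)) ?_ ?_ v h3 x y
        · intro e p p'
          simp only [Φ3, Equiv.coe_fn_mk, bz, Bool.false_eq_true, if_false]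
          ring
        · intro e p p'
          simp only [Φ3, Equiv.coe_fn_mk, bz, Bool.false_eq_true, if_false]
          ring

end Pool.Agent.GLL
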