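import Pool.Agent.GLL.GB

/-!
# GC: the inequalities for the coset masses

First in extended nonnegative reals, then for the normalised masses `f`.
-/

open scoped ENNReal

namespace Pool.Agent.GLL

variable {G : Type*} [AddCommGroup G]

theorem amgm (a b : ℝ≥0∞) : 2 * (a * b) ≤ a * a + b * b := by
  rcases le_total a b with h | h
  · obtain ⟨c, rfl⟩ := exists_add_of_le h
    calc 2 * (a * (a + c)) ≤ 2 * (a * (a + c)) + c * c := le_self_add
      _ = _ := by ring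
  · obtain ⟨c, rfl⟩ := exists_add_of_le h
    calc 2 * ((b + c) * b) ≤ 2 * ((b + c) * b) + c * c := le_self_add
      _ = _ := by ring

theorem cancel_two {a b : ℝ≥0∞} (h : 2 * a ≤ 2 * b) : a ≤ b :=
  (ENNReal.mul_le_mul_iff_right (by norm_num) (by norm_num)).1 h

theorem cs {ι : Type*} (s : Finset ι) (a b : ι → ℝ≥0∞) :
    (∑ i ∈ s, a i * b i) * (∑ i ∈ s, a i * b i) ≤
      (∑ i ∈ s, a i * a i) * (∑ i ∈ s, b i * b i) := by
  apply cancel_two
  calc 2 * ((∑ i ∈ s, a i * b i) * (∑ i ∈ s, a i * b i))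
      = ∑ i ∈ s, ∑ j ∈ s, 2 * ((a i * b j) * (a j * b i)) := by
        rw [Finset.sum_mul_sum, Finset.mul_sum]
        refine Finset.sum_congr rfl fun i _ => ?_
        rw [Finset.mul_sum]
        refine Finset.sum_congr rfl fun j _ => ?_
        ring
    _ ≤ ∑ i ∈ s, ∑ j ∈ s, ((a i * b j) * (a i * b j) + (a j * b i) * (a j * b i)) :=
        Finset.sum_le_sum fun i _ => Finset.sum_le_sum fun j _ => amgm _ _
    _ = ∑ i ∈ s, ∑ j ∈ s, (a i * b j) * (a i * b j) +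
          ∑ i ∈ s, ∑ j ∈ s, (a j * b i) * (a j * b i) := by
        simp_rw [Finset.sum_add_distrib]
    _ = ∑ i ∈ s, ∑ j ∈ s, (a i * b j) * (a i * b j) +
          ∑ i ∈ s, ∑ j ∈ s, (a i * b j) * (a i * b j) := by
        congr 1
        rw [Finset.sum_comm]
    _ = 2 * ((∑ i ∈ s, a i * a i) * (∑ i ∈ s, b i * b i)) := by
        rw [← two_mul, Finset.sum_mul_sum]
        congr 1
        refine Finset.sum_congr rfl fun i _ => Finset.sum_congr rfl fun j _ => ?_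
        ring

section aux

variable {σ : ℝ≥0∞} {A : Finset G}

theorem rs_aux (hA : Pk σ A) (g h : G) :
    (Z (σ ^ 4) A g * Z (σ ^ 4) A h) * (Z (σ ^ 4) A g * Z (σ ^ 4) A h) ≤
      (Z (σ ^ 4) A (g + h) * Z (σ ^ 4) A 0) * (Z (σ ^ 4) A (g - h) * Z (σ ^ 4) A 0) := by
  obtain ⟨ι, hι, i0, U, hU1, -, -⟩ := hA
  rw [hU1 g h, hU1 (g + h) 0, hU1 (g - h) 0]
  simp only [add_zero, sub_zero]
  exact cs _ _ _

theorem mid_aux (hA : Pk σ A) (g h : G) :
    2 * (Z (σ ^ 4) A g * Z (σ ^ 4) A h) ≤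
      Z (σ ^ 4) A (g + h) * Z (σ ^ 4) A 0 + Z (σ ^ 4) A (g - h) * Z (σ ^ 4) A 0 := by
  obtain ⟨ι, hι, i0, U, hU1, -, -⟩ := hA
  rw [hU1 g h, hU1 (g + h) 0, hU1 (g - h) 0]
  simp only [add_zero, sub_zero]
  rw [Finset.mul_sum, ← Finset.sum_add_distrib]
  exact Finset.sum_le_sum fun i _ => amgm _ _

theorem pow_aux (hA : Pk σ A) (g : G) :
    Z (σ ^ 8) A g * (Z (σ ^ 4) A 0 * Z (σ ^ 4) A 0) ≤
      Z (σ ^ 8) A 0 * (Z (σ ^ 4) A g * Z (σ ^ 4) A g) := by
  obtain ⟨ι, hι, i0, U, hU1, hU2, hU3⟩ := hA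
  have key : ∀ i, U i0 (2 • g) * U i 0 ≤ U i (2 • g) * U i0 0 := by
    intro i
    obtain ⟨κ, hκ, V, W, h1, h2, h3⟩ := hU3 i
    apply cancel_two
    rw [h1 (2 • g) 0]
    have h2' := h2 (2 • g) 0
    have h3' := h3 (2 • g) 0
    simp only [add_zero, sub_zero] at h2' h3' ⊢
    rw [two_mul (U i (2 • g) * U i0 0)]
    nth_rw 1 [h2']
    rw [h3', Finset.mul_sum, ← Finset.sum_add_distrib]
    exact Finset.sum_le_sum fun i _ => amgm _ _
  rw [hU1 0 0, hU1 g g, hU2 g, hU2 0]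
  simp only [add_zero, sub_self, smul_zero, Finset.mul_sum]
  refine Finset.sum_le_sum fun i _ => ?_
  rw [← two_nsmul]
  calc U i0 (2 • g) * (U i 0 * U i 0) = (U i0 (2 • g) * U i 0) * U i 0 := by ring
    _ ≤ (U i (2 • g) * U i0 0) * U i 0 := mul_le_mul' (key i) le_rfl
    _ = _ := by ring

end aux

theorem exists_root (q : ℝ≥0∞) : ∃ σ : ℝ≥0∞, σ ^ 4 = q := by
  refine ⟨q ^ ((1 : ℝ) / 4), ?_⟩
  rw [← ENNReal.rpow_natCast, ← ENNReal.rpow_mul]
  norm_num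

section tf

variable [IsAddTorsionFree G]

theorem Z_rs (q : ℝ≥0∞) (A : Finset G) (g h : G) :
    (Z q A g * Z q A h) * (Z q A g * Z q A h) ≤
      (Z q A (g + h) * Z q A 0) * (Z q A (g - h) * Z q A 0) := by
  obtain ⟨σ, rfl⟩ := exists_root q
  exact rs_aux (pk σ A) g h

theorem Z_mid (q : ℝ≥0∞) (A : Finset G) (g h : G) :
    2 * (Z q A g * Z q A h) ≤ Z q A (g + h) * Z q A 0 + Z q A (g - h) * Z q A 0 := by
  obtain ⟨σ, rfl⟩ := exists_root q
  exact mid_aux (pk σ A) g h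

theorem Z_pow (q : ℝ≥0∞) (A : Finset G) (g : G) :
    Z (q ^ 2) A g * (Z q A 0 * Z q A 0) ≤ Z (q ^ 2) A 0 * (Z q A g * Z q A g) := by
  obtain ⟨σ, rfl⟩ := exists_root q
  rw [show (σ ^ 4) ^ 2 = σ ^ 8 by ring]
  exact pow_aux (pk σ A) g

theorem Z_mono_insert [DecidableEq G] (q : ℝ≥0∞) {v : G} {A : Finset G} (h : v ∉ A) (g : G) :
    Z q A g * Z q (insert v A) 0 ≤ Z q A 0 * Z q (insert v A) g := by
  apply cancel_two
  have e0 : Z q (insert v A) 0 = ∑' c : ℤ, q ^ (c.natAbs ^ 2) * Z q A (c • v) := by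
    rw [Z_insert q h]
    unfold T
    refine tsum_congr fun c => ?_
    rw [zero_sub, Z_neg]
  have e1 : Z q (insert v A) g = ∑' c : ℤ, q ^ (c.natAbs ^ 2) * Z q A (g - c • v) := by
    rw [Z_insert q h]
    rfl
  have e2 : Z q (insert v A) g = ∑' c : ℤ, q ^ (c.natAbs ^ 2) * Z q A (g + c • v) := by
    rw [e1, ← (Equiv.neg ℤ).tsum_eq]
    refine tsum_congr fun c => ?_
    simp only [Equiv.neg_apply, Int.natAbs_neg, neg_smul, sub_neg_eq_add]
  calc 2 * (Z q A g * Z q (insert v A) 0)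
      = ∑' c : ℤ, q ^ (c.natAbs ^ 2) * (2 * (Z q A g * Z q A (c • v))) := by
        rw [e0, ← ENNReal.tsum_mul_left, ← ENNReal.tsum_mul_left]
        refine tsum_congr fun c => ?_
        ring
    _ ≤ ∑' c : ℤ, q ^ (c.natAbs ^ 2) *
          (Z q A (g + c • v) * Z q A 0 + Z q A (g - c • v) * Z q A 0) := by
        refine ENNReal.tsum_le_tsum fun c => ?_
        gcongr
        exact Z_mid q A g (c • v)
    _ = Z q A 0 * Z q (insert v A) g + Z q A 0 * Z q (insert v A) g := by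
        nth_rw 1 [e2]
        rw [e1, ← ENNReal.tsum_mul_left, ← ENNReal.tsum_mul_left, ← ENNReal.tsum_add]
        refine tsum_congr fun c => ?_
        ring
    _ = _ := by ring

end tf

/-! ## Finiteness -/

theorem th_le (q : ℝ≥0∞) (hq : q ≤ 1) : th q ≤ 2 * (1 - q)⁻¹ := by
  unfold th
  have hsplit : ∑' c : ℤ, q ^ (c.natAbs ^ 2) =
      ∑' n : ℕ, q ^ (((n : ℤ)).natAbs ^ 2) + ∑' n : ℕ, q ^ ((-((n : ℤ) + 1)).natAbs ^ 2) := by
    refine HasSum.tsum_eq ?_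
    exact HasSum.of_nat_of_neg_add_one (f := fun c : ℤ => q ^ (c.natAbs ^ 2))
      ENNReal.summable.hasSum ENNReal.summable.hasSum
  rw [hsplit, two_mul]
  have key : ∀ m n : ℕ, n ≤ m → q ^ (m ^ 2) ≤ q ^ n := by
    intro m n hmn
    refine pow_le_pow_right_of_le_one' hq (hmn.trans ?_)
    exact Nat.le_self_pow (by norm_num) m
  refine add_le_add ?_ ?_
  · rw [← ENNReal.tsum_geometric]
    exact ENNReal.tsum_le_tsum fun n => key _ _ (by simp)
  · rw [← ENNReal.tsum_geometric]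
    exact ENNReal.tsum_le_tsum fun n => key _ _ (by omega)

end Pool.Agent.GLL
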