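import Pool.Agent.GLL.GC

/-!
# GD: normalised coset masses as real numbers
-/

open scoped ENNReal

namespace Pool.Agent.GLL

variable {G : Type*} [AddCommGroup G]

/-- Real coset mass. -/
noncomputable def z (p : ℝ) (A : Finset G) (g : G) : ℝ := (Z (ENNReal.ofReal p) A g).toReal

/-- Normalised coset mass. -/
noncomputable def f (p : ℝ) (A : Finset G) (g : G) : ℝ := z p A g / z p A 0

theorem th_real_le {p : ℝ} (hp0 : 0 ≤ p) (hp1 : p < 1) :
    th (ENNReal.ofReal p) ≤ ENNReal.ofReal (2 / (1 - p)) := by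
  refine (th_le _ ?_).trans ?_
  · exact ENNReal.ofReal_le_one.2 hp1.le
  · have h1 : (1 : ℝ≥0∞) - ENNReal.ofReal p = ENNReal.ofReal (1 - p) := by
      rw [ENNReal.ofReal_sub _ hp0, ENNReal.ofReal_one]
    rw [h1, ← ENNReal.ofReal_inv_of_pos (by linarith), div_eq_mul_inv,
      ENNReal.ofReal_mul (by norm_num)]
    simp

theorem th_ne_top {p : ℝ} (hp0 : 0 ≤ p) (hp1 : p < 1) : th (ENNReal.ofReal p) ≠ ⊤ :=
  ne_top_of_le_ne_top ENNReal.ofReal_ne_top (th_real_le hp0 hp1)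

theorem Z_ne_top {p : ℝ} (hp0 : 0 ≤ p) (hp1 : p < 1) (A : Finset G) (g : G) :
    Z (ENNReal.ofReal p) A g ≠ ⊤ :=
  ne_top_of_le_ne_top (ENNReal.pow_ne_top (th_ne_top hp0 hp1)) (Z_le _ A g)

theorem z_nonneg (p : ℝ) (A : Finset G) (g : G) : 0 ≤ z p A g := ENNReal.toReal_nonneg

theorem one_le_z {p : ℝ} (hp0 : 0 ≤ p) (hp1 : p < 1) (A : Finset G) : 1 ≤ z p A 0 := by
  unfold z
  rw [← ENNReal.toReal_one]
  exact ENNReal.toReal_mono (Z_ne_top hp0 hp1 A 0) (one_le_Z _ A)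

theorem z_pos {p : ℝ} (hp0 : 0 ≤ p) (hp1 : p < 1) (A : Finset G) : 0 < z p A 0 :=
  one_pos.trans_le (one_le_z hp0 hp1 A)

theorem f_nonneg (p : ℝ) (A : Finset G) (g : G) : 0 ≤ f p A g :=
  div_nonneg (z_nonneg _ _ _) (z_nonneg _ _ _)

theorem f_zero {p : ℝ} (hp0 : 0 ≤ p) (hp1 : p < 1) (A : Finset G) : f p A 0 = 1 :=
  div_self (z_pos hp0 hp1 A).ne'

theorem f_neg (p : ℝ) (A : Finset G) (g : G) : f p A (-g) = f p A g := by
  unfold f z
  rw [Z_neg]

theorem f_empty (p : ℝ) {g : G} (h : g ≠ 0) : f p (∅ : Finset G) g = 0 := by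
  unfold f z
  rw [Z_empty, pt_of_ne h]
  simp

section tf

variable [IsAddTorsionFree G]

theorem z_mid {p : ℝ} (hp0 : 0 ≤ p) (hp1 : p < 1) (A : Finset G) (g h : G) :
    2 * (z p A g * z p A h) ≤ z p A (g + h) * z p A 0 + z p A (g - h) * z p A 0 := by
  have h1 := Z_mid (ENNReal.ofReal p) A g h
  have hf := fun x => Z_ne_top hp0 hp1 A x
  have h2 := ENNReal.toReal_mono (ENNReal.add_ne_top.2 ⟨ENNReal.mul_ne_top (hf (g + h)) (hf 0),
    ENNReal.mul_ne_top (hf (g - h)) (hf 0)⟩) h1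
  rw [ENNReal.toReal_add (ENNReal.mul_ne_top (hf (g + h)) (hf 0))
    (ENNReal.mul_ne_top (hf (g - h)) (hf 0))] at h2
  simpa only [z, ENNReal.toReal_mul, ENNReal.toReal_ofNat] using h2

theorem z_rs {p : ℝ} (hp0 : 0 ≤ p) (hp1 : p < 1) (A : Finset G) (g h : G) :
    (z p A g * z p A h) * (z p A g * z p A h) ≤
      (z p A (g + h) * z p A 0) * (z p A (g - h) * z p A 0) := by
  have h1 := Z_rs (ENNReal.ofReal p) A g h
  have hf := fun x => Z_ne_top hp0 hp1 A x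
  have h2 := ENNReal.toReal_mono (ENNReal.mul_ne_top (ENNReal.mul_ne_top (hf (g + h)) (hf 0))
    (ENNReal.mul_ne_top (hf (g - h)) (hf 0))) h1
  simpa only [z, ENNReal.toReal_mul] using h2

theorem z_pow {p : ℝ} (hp0 : 0 ≤ p) (hp1 : p < 1) (A : Finset G) (g : G) :
    z (p ^ 2) A g * (z p A 0 * z p A 0) ≤ z (p ^ 2) A 0 * (z p A g * z p A g) := by
  have h1 := Z_pow (ENNReal.ofReal p) A g
  rw [← ENNReal.ofReal_pow hp0] at h1
  have hf := fun x => Z_ne_top hp0 hp1 A x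
  have hf2 := fun x => Z_ne_top (p := p ^ 2) (by positivity) (by nlinarith) A x
  have h2 := ENNReal.toReal_mono (ENNReal.mul_ne_top (hf2 0)
    (ENNReal.mul_ne_top (hf g) (hf g))) h1
  simpa only [z, ENNReal.toReal_mul] using h2

theorem z_mono_insert [DecidableEq G] {p : ℝ} (hp0 : 0 ≤ p) (hp1 : p < 1) {v : G} {A : Finset G}
    (h : v ∉ A) (g : G) :
    z p A g * z p (insert v A) 0 ≤ z p A 0 * z p (insert v A) g := by
  have h1 := Z_mono_insert (ENNReal.ofReal p) h g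
  have h2 := ENNReal.toReal_mono (ENNReal.mul_ne_top (Z_ne_top hp0 hp1 A 0)
    (Z_ne_top hp0 hp1 _ g)) h1
  simpa only [z, ENNReal.toReal_mul] using h2

theorem f_mid {p : ℝ} (hp0 : 0 ≤ p) (hp1 : p < 1) (A : Finset G) (g h : G) :
    2 * (f p A g * f p A h) ≤ f p A (g + h) + f p A (g - h) := by
  have h0 := z_pos hp0 hp1 A
  have h1 := z_mid hp0 hp1 A g h
  unfold f
  rw [div_mul_div_comm, ← add_div, ← mul_div_assoc, div_le_div_iff₀ (by positivity) h0]
  nlinarith [h1, h0]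

theorem f_rs {p : ℝ} (hp0 : 0 ≤ p) (hp1 : p < 1) (A : Finset G) (g h : G) :
    f p A g ^ 2 * f p A h ^ 2 ≤ f p A (g + h) * f p A (g - h) := by
  have h0 := z_pos hp0 hp1 A
  have h1 := z_rs hp0 hp1 A g h
  unfold f
  rw [div_pow, div_pow, div_mul_div_comm, div_mul_div_comm, div_le_div_iff₀ (by positivity)
    (by positivity)]
  have h2 : 0 ≤ z p A 0 * z p A 0 := by positivity
  calc z p A g ^ 2 * z p A h ^ 2 * (z p A 0 * z p A 0)
      = ((z p A g * z p A h) * (z p A g * z p A h)) * (z p A 0 * z p A 0) := by ring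
    _ ≤ ((z p A (g + h) * z p A 0) * (z p A (g - h) * z p A 0)) * (z p A 0 * z p A 0) := by gcongr
    _ = _ := by ring

theorem f_pow {p : ℝ} (hp0 : 0 ≤ p) (hp1 : p < 1) (A : Finset G) (g : G) :
    f (p ^ 2) A g ≤ f p A g ^ 2 := by
  have h0 := z_pos hp0 hp1 A
  have h2 := z_pos (p := p ^ 2) (by positivity) (by nlinarith) A
  have h1 := z_pow hp0 hp1 A g
  unfold f
  rw [div_pow, div_le_div_iff₀ h2 (by positivity)]
  nlinarith [h1]

theorem f_pow_pow {p : ℝ} (hp0 : 0 ≤ p) (hp1 : p < 1) (A : Finset G) (g : G) (k : ℕ) :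
    f (p ^ (2 ^ k)) A g ≤ f p A g ^ (2 ^ k) := by
  induction k with
  | zero => simp
  | succ k ih =>
    rw [pow_succ 2 k, pow_mul, pow_mul]
    refine (f_pow (by positivity) (pow_lt_one₀ hp0 hp1 (by positivity)) A g).trans ?_
    gcongr
    exact f_nonneg _ _ _

theorem f_mono_insert [DecidableEq G] {p : ℝ} (hp0 : 0 ≤ p) (hp1 : p < 1) (v : G) (A : Finset G)
    (g : G) : f p A g ≤ f p (insert v A) g := by
  by_cases h : v ∈ A
  · rw [Finset.insert_eq_of_mem h]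
  have h0 := z_pos hp0 hp1 A
  have h2 := z_pos hp0 hp1 (insert v A)
  have h1 := z_mono_insert hp0 hp1 h g
  unfold f
  rw [div_le_div_iff₀ h0 h2]
  linarith

theorem f_mono {p : ℝ} (hp0 : 0 ≤ p) (hp1 : p < 1) {A B : Finset G} (h : A ⊆ B) (g : G) :
    f p A g ≤ f p B g := by
  classical
  have key : ∀ C : Finset G, f p A g ≤ f p (C ∪ A) g := by
    intro C
    induction C using Finset.induction_on with
    | empty => simp
    | insert v C _ ih =>
      rw [Finset.insert_union]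
      exact ih.trans (f_mono_insert hp0 hp1 v _ g)
  have := key B
  rwa [Finset.union_eq_left.2 h] at this

omit [IsAddTorsionFree G] in
theorem f_bound {p : ℝ} (hp0 : 0 ≤ p) (hp1 : p < 1) (A : Finset G) (g : G) :
    f p A g ≤ (th (ENNReal.ofReal p) ^ A.card).toReal := by
  unfold f
  rw [div_le_iff₀ (z_pos hp0 hp1 A)]
  have h1 : z p A g ≤ (th (ENNReal.ofReal p) ^ A.card).toReal :=
    ENNReal.toReal_mono (ENNReal.pow_ne_top (th_ne_top hp0 hp1)) (Z_le _ A g)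
  nlinarith [one_le_z hp0 hp1 A, z_nonneg p A g]

theorem f_le_one {p : ℝ} (hp0 : 0 ≤ p) (hp1 : p < 1) (A : Finset G) (g : G) : f p A g ≤ 1 := by
  have hbdd : BddAbove (Set.range (f p A)) := by
    refine ⟨(th (ENNReal.ofReal p) ^ A.card).toReal, ?_⟩
    rintro _ ⟨x, rfl⟩
    exact f_bound hp0 hp1 A x
  set B := ⨆ x, f p A x with hB
  have h1 : ∀ x, f p A x ≤ B := fun x => le_ciSup hbdd x
  have hB0 : 1 ≤ B := by
    have := h1 0
    rwa [f_zero hp0 hp1] at this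
  have h2 : ∀ x, f p A x ≤ Real.sqrt ((B + 1) / 2) := by
    intro x
    apply Real.le_sqrt_of_sq_le
    have h3 := f_mid hp0 hp1 A x x
    rw [sub_self, f_zero hp0 hp1] at h3
    nlinarith [h1 (x + x)]
  have h3 : B ≤ Real.sqrt ((B + 1) / 2) := ciSup_le h2
  have h4 : B ^ 2 ≤ (B + 1) / 2 := by
    have := Real.sq_sqrt (show 0 ≤ (B + 1) / 2 by linarith)
    nlinarith [Real.sqrt_nonneg ((B + 1) / 2)]
  have h5 : B ≤ 1 := by nlinarith
  exact (h1 g).trans h5

end tf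

/-! ## Sums -/

theorem summable_sq {p : ℝ} (hp0 : 0 ≤ p) (hp1 : p < 1) :
    Summable fun c : ℤ => p ^ (c.natAbs ^ 2) := by
  have h1 : ∑' c : ℤ, ENNReal.ofReal (p ^ (c.natAbs ^ 2)) ≠ ⊤ := by
    have : ∑' c : ℤ, ENNReal.ofReal (p ^ (c.natAbs ^ 2)) = th (ENNReal.ofReal p) := by
      unfold th
      refine tsum_congr fun c => ?_
      rw [ENNReal.ofReal_pow hp0]
    rw [this]
    exact th_ne_top hp0 hp1
  have h2 := ENNReal.summable_toReal h1
  refine h2.congr fun c => ?_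
  rw [ENNReal.toReal_ofReal (by positivity)]

theorem summable_sq_mul {p : ℝ} (hp0 : 0 ≤ p) (hp1 : p < 1) {u : ℤ → ℝ} (h0 : ∀ c, 0 ≤ u c)
    (h1 : ∀ c, u c ≤ 1) : Summable fun c : ℤ => p ^ (c.natAbs ^ 2) * u c := by
  refine Summable.of_nonneg_of_le (fun c => ?_) (fun c => ?_) (summable_sq hp0 hp1)
  · exact mul_nonneg (by positivity) (h0 c)
  · exact mul_le_of_le_one_right (by positivity) (h1 c)

theorem z_insert [DecidableEq G] {p : ℝ} (hp0 : 0 ≤ p) (hp1 : p < 1) {v : G} {A : Finset G}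
    (h : v ∉ A) (g : G) :
    z p (insert v A) g = ∑' c : ℤ, p ^ (c.natAbs ^ 2) * z p A (g - c • v) := by
  unfold z
  rw [Z_insert _ h]
  unfold T
  rw [ENNReal.tsum_toReal_eq]
  · refine tsum_congr fun c => ?_
    rw [ENNReal.toReal_mul, ENNReal.toReal_pow, ENNReal.toReal_ofReal hp0]
  · intro c
    exact ENNReal.mul_ne_top (ENNReal.pow_ne_top ENNReal.ofReal_ne_top) (Z_ne_top hp0 hp1 A _)

theorem f_insert [DecidableEq G] {p : ℝ} (hp0 : 0 ≤ p) (hp1 : p < 1) {v : G} {A : Finset G}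
    (h : v ∉ A) (g : G) :
    f p (insert v A) g * ∑' c : ℤ, p ^ (c.natAbs ^ 2) * f p A (c • v) =
      ∑' c : ℤ, p ^ (c.natAbs ^ 2) * f p A (g - c • v) := by
  have h0 := z_pos hp0 hp1 A
  have e : ∀ g, ∑' c : ℤ, p ^ (c.natAbs ^ 2) * f p A (g - c • v) = z p (insert v A) g / z p A 0 := by
    intro g
    rw [z_insert hp0 hp1 h, ← tsum_div_const]
    refine tsum_congr fun c => ?_
    unfold f
    ring
  have e0 : ∑' c : ℤ, p ^ (c.natAbs ^ 2) * f p A (c • v) = z p (insert v A) 0 / z p A 0 := by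
    rw [← e 0]
    refine tsum_congr fun c => ?_
    rw [zero_sub, f_neg]
  rw [e, e0]
  have h2 := z_pos hp0 hp1 (insert v A)
  unfold f
  field_simp

theorem f_sum {p : ℝ} (hp0 : 0 ≤ p) (hp1 : p < 1) (A : Finset G) (S : Finset G) :
    ∑ g ∈ S, f p A g ≤ (2 / (1 - p)) ^ A.card := by
  have h1 : ∑ g ∈ S, Z (ENNReal.ofReal p) A g ≤ ENNReal.ofReal ((2 / (1 - p)) ^ A.card) := by
    refine (ENNReal.sum_le_tsum S).trans ?_
    rw [mass_Z, ENNReal.ofReal_pow (div_nonneg (by norm_num) (by linarith))]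
    exact pow_le_pow_left' (th_real_le hp0 hp1) _
  have h2 : ∑ g ∈ S, z p A g ≤ (2 / (1 - p)) ^ A.card := by
    unfold z
    rw [← ENNReal.toReal_sum fun g _ => Z_ne_top hp0 hp1 A g]
    refine (ENNReal.toReal_mono ENNReal.ofReal_ne_top h1).trans ?_
    rw [ENNReal.toReal_ofReal]
    exact pow_nonneg (div_nonneg (by norm_num) (by linarith)) _
  refine le_trans (Finset.sum_le_sum fun g _ => ?_) h2
  unfold f
  exact div_le_self (z_nonneg _ _ _) (one_le_z hp0 hp1 A)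

end Pool.Agent.GLL
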