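import Pool.Agent.GLL.GD
import Pool.Agent.NU.NTf
import Pool.Agent.NU.Def

/-!
# GE: absorbed elements, closure bound, colouring
-/

open scoped ENNReal

namespace Pool.Agent.GLL

open Pool.Agent.NU

variable {G : Type*} [AddCommGroup G]

/-- `v` is absorbed by `A` at scale `p`. -/
def Absd (p : ℝ) (A : Finset G) (v : G) : Prop := 9 / 10 ≤ f p A v ∨ 9 / 10 ≤ f p A (2 • v)

section tf

variable [IsAddTorsionFree G]

theorem Absd.mono {p : ℝ} (hp0 : 0 ≤ p) (hp1 : p < 1) {A B : Finset G} (h : A ⊆ B) {v : G}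
    (hv : Absd p A v) : Absd p B v := by
  rcases hv with h1 | h1
  · exact Or.inl (h1.trans (f_mono hp0 hp1 h v))
  · exact Or.inr (h1.trans (f_mono hp0 hp1 h _))

theorem sum_signed {p : ℝ} (hp0 : 0 ≤ p) (hp1 : p < 1) (A B : Finset G) (j : ℕ)
    (hB : ∀ w ∈ B, 9 / 10 ≤ f p A (j • w)) :
    (9 / 5 : ℝ) ^ B.card ≤
      ∑ S ∈ B.powerset, f p A ((2 * j) • (∑ x ∈ S, x) - j • ∑ x ∈ B, x) := by
  classical
  induction B using Finset.induction_on with
  | empty => simp [f_zero hp0 hp1]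
  | insert b B hb ih =>
    have ih' := ih fun w hw => hB w (Finset.mem_insert_of_mem hw)
    rw [Finset.sum_powerset_insert hb, ← Finset.sum_add_distrib, Finset.card_insert_of_notMem hb,
      pow_succ, mul_comm]
    calc (9 / 5 : ℝ) * (9 / 5) ^ B.card
        ≤ (9 / 5) * ∑ S ∈ B.powerset, f p A ((2 * j) • (∑ x ∈ S, x) - j • ∑ x ∈ B, x) := by
          gcongr
      _ = ∑ S ∈ B.powerset, (9 / 5) * f p A ((2 * j) • (∑ x ∈ S, x) - j • ∑ x ∈ B, x) := by
          rw [Finset.mul_sum]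
      _ ≤ _ := by
          refine Finset.sum_le_sum fun S hS => ?_
          have hbS : b ∉ S := fun h => hb (Finset.mem_powerset.1 hS h)
          rw [Finset.sum_insert hb, Finset.sum_insert hbS]
          set x := (2 * j) • (∑ x ∈ S, x) - j • ∑ x ∈ B, x with hx
          have e1 : (2 * j) • (∑ x ∈ S, x) - j • (b + ∑ x ∈ B, x) = x - j • b := by
            rw [hx, smul_add]; abel
          have e2 : (2 * j) • (b + ∑ x ∈ S, x) - j • (b + ∑ x ∈ B, x) = x + j • b := by
            rw [hx, smul_add, smul_add, two_mul, add_smul]; abel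
          rw [e1, e2]
          have h1 := f_mid hp0 hp1 A x (j • b)
          have h2 := hB b (Finset.mem_insert_self b B)
          have h3 := f_nonneg p A x
          nlinarith

theorem pow_card_le {p : ℝ} (hp0 : 0 ≤ p) (hp1 : p < 1) (A B : Finset G) {j : ℕ} (hj : j ≠ 0)
    (hB : ∀ w ∈ B, 9 / 10 ≤ f p A (j • w)) (hd : DistinctSums B) :
    (9 / 5 : ℝ) ^ B.card ≤ (2 / (1 - p)) ^ A.card := by
  classical
  refine (sum_signed hp0 hp1 A B j hB).trans ?_
  have hinj : Set.InjOn (fun S : Finset G => (2 * j) • (∑ x ∈ S, x) - j • ∑ x ∈ B, x)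
      (B.powerset : Set (Finset G)) := by
    intro S hS S' hS' h
    have hS1 := Finset.mem_powerset.1 (Finset.mem_coe.1 hS)
    have hS2 := Finset.mem_powerset.1 (Finset.mem_coe.1 hS')
    refine hd S S' hS1 hS2 ?_
    have h1 : (2 * j) • (∑ x ∈ S, x) = (2 * j) • (∑ x ∈ S', x) := sub_left_injective h
    exact nsmul_right_injective (by omega) h1
  rw [← Finset.sum_image (f := fun g => f p A g) hinj]
  exact f_sum hp0 hp1 A _

theorem card_absd_le {p : ℝ} (hp0 : 0 ≤ p) (hp1 : p < 1) {δ : ℝ} {Λ : Set G}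
    (hΛ : Proportional δ Λ) (A W : Finset G) (hW : (↑W : Set G) ⊆ Λ)
    (h : ∀ w ∈ W, Absd p A w) :
    (W.card : ℝ) * (δ * Real.log (9 / 5)) ≤ 2 * (A.card * Real.log (2 / (1 - p))) := by
  classical
  have key : ∀ j : ℕ, j ≠ 0 → ∀ V : Finset G, V ⊆ W → (∀ w ∈ V, 9 / 10 ≤ f p A (j • w)) →
      (V.card : ℝ) * (δ * Real.log (9 / 5)) ≤ A.card * Real.log (2 / (1 - p)) := by
    intro j hj V hV hVa
    obtain ⟨B, hBV, hBd, hBc⟩ := hΛ V fun x hx => hW (hV hx)
    have h1 := pow_card_le hp0 hp1 A B hj (fun w hw => hVa w (hBV hw)) hBd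
    have h2 := Real.log_le_log (by positivity) h1
    rw [Real.log_pow, Real.log_pow] at h2
    have h3 : 0 ≤ Real.log (9 / 5) := Real.log_nonneg (by norm_num)
    calc (V.card : ℝ) * (δ * Real.log (9 / 5)) = (δ * V.card) * Real.log (9 / 5) := by ring
      _ ≤ B.card * Real.log (9 / 5) := by gcongr
      _ ≤ _ := h2
  set W1 := W.filter fun w => 9 / 10 ≤ f p A w with hW1
  have h1 := key 1 (by norm_num) W1 (Finset.filter_subset _ _) (by
    intro w hw
    rw [one_smul]
    exact (Finset.mem_filter.1 hw).2)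
  have h2 := key 2 (by norm_num) (W \ W1) Finset.sdiff_subset (by
    intro w hw
    rw [Finset.mem_sdiff] at hw
    rcases h w hw.1 with h3 | h3
    · exact absurd (Finset.mem_filter.2 ⟨hw.1, h3⟩) hw.2
    · exact h3)
  have hc : (W.card : ℝ) = W1.card + (W \ W1).card := by
    have := Finset.card_sdiff_add_card_eq_card (Finset.filter_subset (fun w => 9 / 10 ≤ f p A w) W)
    rw [← hW1] at this
    rw [← this]
    push_cast
    ring
  rw [hc, add_mul, two_mul]
  linarith

theorem colouring {p : ℝ} (hp0 : 0 ≤ p) (hp1 : p < 1) {δ : ℝ} (hδ : 0 < δ) {Λ : Set G}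
    (hΛ : Proportional δ Λ) {K : ℕ}
    (hK : 2 * Real.log (2 / (1 - p)) / (δ * Real.log (9 / 5)) + 1 ≤ K) :
    ∃ T : Fin (2 * K) → Set G, Λ = ⋃ i, T i ∧ ∀ i, ∀ A : Finset G, (↑A : Set G) ⊆ T i →
      A.Nonempty → ∃ v ∈ A, ∀ B : Finset G, v ∉ B → B ⊆ A → ¬ Absd p B v := by
  classical
  obtain ⟨T, hT1, hT2⟩ := infinite_colouring K Λ
    {C : Finset G | C.Nonempty ∧ ∀ v ∈ C, Absd p (C.erase v) v}
    (by
      intro h
      exact Finset.not_nonempty_empty h.1)
    (by
      intro A W hA hW hAW h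
      have h1 : ∀ w ∈ W, Absd p A w := by
        intro w hw
        obtain ⟨C, hC, hwC, hCA⟩ := h w hw
        refine (hC.2 w hwC).mono hp0 hp1 ?_
        intro x hx
        have h2 := Finset.mem_erase.1 hx
        exact (Finset.mem_insert.1 (hCA h2.2)).resolve_left h2.1
      have h2 := card_absd_le hp0 hp1 hΛ A W hW h1
      have h3 : 0 < δ * Real.log (9 / 5) := mul_pos hδ (Real.log_pos (by norm_num))
      have h4 : (W.card : ℝ) ≤ (2 * Real.log (2 / (1 - p)) / (δ * Real.log (9 / 5))) * A.card := by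
        rw [div_mul_eq_mul_div, le_div_iff₀ h3]
        linarith
      have h5 : ((A.card + W.card : ℕ) : ℝ) ≤ ((K * A.card : ℕ) : ℝ) := by
        push_cast
        have : (0 : ℝ) ≤ A.card := by positivity
        nlinarith
      exact_mod_cast h5)
  refine ⟨T, hT1, fun i A hA hne => ?_⟩
  have h1 := hT2 i
  by_contra hcon
  push Not at hcon
  refine h1 A ⟨hne, fun v hv => ?_⟩ hA
  obtain ⟨B, hvB, hBA, hB⟩ := hcon v hv
  refine hB.mono hp0 hp1 ?_
  intro x hx
  exact Finset.mem_erase.2 ⟨fun h => hvB (h ▸ hx), hBA hx⟩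

end tf

end Pool.Agent.GLL
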