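import Pool.Agent.GLL.GD

/-!
# GF: the surprise lemma

Adding an element `v` whose multiples `v` and `2v` have small coset mass.
-/

namespace Pool.Agent.GLL

variable {G : Type*} [AddCommGroup G] [IsAddTorsionFree G]

/-- Terms of the sum for `y`. -/
noncomputable def bb (p : ℝ) (A : Finset G) (v y : G) (c : ℤ) : ℝ :=
  p ^ (c.natAbs ^ 2) * f p A (y - c • v)

/-- Terms of the normalising sum. -/
noncomputable def aa (p : ℝ) (A : Finset G) (v : G) (c : ℤ) : ℝ :=
  p ^ (c.natAbs ^ 2) * f p A (c • v)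

omit [IsAddTorsionFree G] in
theorem bb_nonneg {p : ℝ} (hp0 : 0 ≤ p) (A : Finset G) (v y : G) (c : ℤ) :
    0 ≤ bb p A v y c := mul_nonneg (by positivity) (f_nonneg _ _ _)

omit [IsAddTorsionFree G] in
theorem aa_nonneg {p : ℝ} (hp0 : 0 ≤ p) (A : Finset G) (v : G) (c : ℤ) :
    0 ≤ aa p A v c := mul_nonneg (by positivity) (f_nonneg _ _ _)

theorem bb_summable {p : ℝ} (hp0 : 0 ≤ p) (hp1 : p < 1) (A : Finset G) (v y : G) :
    Summable (bb p A v y) :=
  summable_sq_mul hp0 hp1 (fun _ => f_nonneg _ _ _) fun _ => f_le_one hp0 hp1 _ _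

theorem aa_summable {p : ℝ} (hp0 : 0 ≤ p) (hp1 : p < 1) (A : Finset G) (v : G) :
    Summable (aa p A v) :=
  summable_sq_mul hp0 hp1 (fun _ => f_nonneg _ _ _) fun _ => f_le_one hp0 hp1 _ _

theorem bb_mid {p : ℝ} (hp0 : 0 ≤ p) (hp1 : p < 1) (A : Finset G) (v y : G) (u d : ℤ) :
    2 * (bb p A v y u * aa p A v d) ≤ bb p A v y (u + d) + bb p A v y (u - d) := by
  have h1 := f_rs hp0 hp1 A (y - u • v) (d • v)
  have e1 : y - u • v + d • v = y - (u - d) • v := by rw [sub_smul]; abel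
  have e2 : y - u • v - d • v = y - (u + d) • v := by rw [add_smul]; abel
  rw [e1, e2] at h1
  have h2 : (bb p A v y u * aa p A v d) ^ 2 ≤ bb p A v y (u + d) * bb p A v y (u - d) := by
    unfold bb aa
    have e3 : (p ^ ((u + d).natAbs ^ 2)) * (p ^ ((u - d).natAbs ^ 2)) =
        (p ^ (u.natAbs ^ 2)) ^ 2 * (p ^ (d.natAbs ^ 2)) ^ 2 := by
      rw [← pow_add, ← pow_mul, ← pow_mul, ← pow_add]
      congr 1
      have : (((u + d).natAbs ^ 2 + (u - d).natAbs ^ 2 : ℕ) : ℤ) =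
          ((u.natAbs ^ 2 * 2 + d.natAbs ^ 2 * 2 : ℕ) : ℤ) := by
        push_cast
        simp only [sq_abs]
        ring
      exact_mod_cast this
    calc (p ^ (u.natAbs ^ 2) * f p A (y - u • v) * (p ^ (d.natAbs ^ 2) * f p A (d • v))) ^ 2
        = ((p ^ (u.natAbs ^ 2)) ^ 2 * (p ^ (d.natAbs ^ 2)) ^ 2) *
            (f p A (y - u • v) ^ 2 * f p A (d • v) ^ 2) := by ring
      _ ≤ ((p ^ (u.natAbs ^ 2)) ^ 2 * (p ^ (d.natAbs ^ 2)) ^ 2) *
            (f p A (y - (u - d) • v) * f p A (y - (u + d) • v)) := by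
          gcongr
      _ = _ := by rw [← e3]; ring
  have h3 := bb_nonneg hp0 A v y (u + d)
  have h4 := bb_nonneg hp0 A v y (u - d)
  have h5 : 0 ≤ bb p A v y u * aa p A v d :=
    mul_nonneg (bb_nonneg hp0 _ _ _ _) (aa_nonneg hp0 _ _ _)
  have h6 : (2 * (bb p A v y u * aa p A v d)) ^ 2 ≤ (bb p A v y (u + d) + bb p A v y (u - d)) ^ 2 := by
    nlinarith [sq_nonneg (bb p A v y (u + d) - bb p A v y (u - d))]
  exact le_of_sq_le_sq h6 (by positivity)

theorem bb_summable_add {p : ℝ} (hp0 : 0 ≤ p) (hp1 : p < 1) (A : Finset G) (v y : G) (u : ℤ) :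
    Summable (fun d => bb p A v y (u + d)) :=
  (bb_summable hp0 hp1 A v y).comp_injective (i := fun d : ℤ => u + d) (add_right_injective u)

theorem bb_summable_sub {p : ℝ} (hp0 : 0 ≤ p) (hp1 : p < 1) (A : Finset G) (v y : G) (u : ℤ) :
    Summable (fun d => bb p A v y (u - d)) :=
  (bb_summable hp0 hp1 A v y).comp_injective (i := fun d : ℤ => u - d) (sub_right_injective)

omit [IsAddTorsionFree G] in
theorem bb_neg_shift (p : ℝ) (A : Finset G) (v y : G) (u : ℤ)
    (Γ : Set ℤ) (hΓ : ∀ d, d ∈ Γ → -d ∈ Γ) :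
    ∑' d, Γ.indicator (fun d => bb p A v y (u - d)) d =
      ∑' d, Γ.indicator (fun d => bb p A v y (u + d)) d := by
  classical
  have h := (Equiv.neg ℤ).tsum_eq (Γ.indicator (fun d => bb p A v y (u - d)))
  rw [← h]
  refine tsum_congr fun d => ?_
  simp only [Equiv.neg_apply]
  by_cases hd : d ∈ Γ
  · rw [Set.indicator_of_mem (hΓ d hd), Set.indicator_of_mem hd, sub_neg_eq_add]
  · have : -d ∉ Γ := fun h => hd (by simpa using hΓ _ h)
    rw [Set.indicator_of_notMem this, Set.indicator_of_notMem hd]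

/-- Sum over a symmetric set of shifts. -/
theorem shift_sum {p : ℝ} (hp0 : 0 ≤ p) (hp1 : p < 1) (A : Finset G) (v y : G) (u : ℤ)
    (Γ : Set ℤ) (hΓ : ∀ d, d ∈ Γ → -d ∈ Γ) :
    bb p A v y u * ∑' d, Γ.indicator (aa p A v) d ≤
      ∑' d, Γ.indicator (fun d => bb p A v y (u + d)) d := by
  classical
  have s1 := (bb_summable_add hp0 hp1 A v y u).indicator Γ
  have s2 := (bb_summable_sub hp0 hp1 A v y u).indicator Γ
  have s3 := (((aa_summable hp0 hp1 A v).indicator Γ).mul_left (bb p A v y u)).mul_left 2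
  have e := bb_neg_shift p A v y u Γ hΓ
  have h0 : ∀ d, 2 * (bb p A v y u * Γ.indicator (aa p A v) d) ≤
      Γ.indicator (fun d => bb p A v y (u + d)) d + Γ.indicator (fun d => bb p A v y (u - d)) d := by
    intro d
    by_cases hd : d ∈ Γ
    · simp only [Set.indicator_of_mem hd]
      exact bb_mid hp0 hp1 A v y u d
    · simp only [Set.indicator_of_notMem hd]
      simp
  have h1 := Summable.tsum_le_tsum h0 s3 (s1.add s2)
  rw [s1.tsum_add s2, e, tsum_mul_left, tsum_mul_left] at h1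
  linarith

/-- The value at `y` dominates every term. -/
theorem surprise_one {p : ℝ} (hp0 : 0 ≤ p) (hp1 : p < 1) (A : Finset G) (v y : G) (c : ℤ) :
    bb p A v y c * ∑' d, aa p A v d ≤ ∑' d, bb p A v y d := by
  have h1 := shift_sum hp0 hp1 A v y c Set.univ (by simp)
  simp only [Set.indicator_univ] at h1
  rw [show ∑' d, bb p A v y (c + d) = ∑' d, bb p A v y d from
    (Equiv.addLeft c).tsum_eq (bb p A v y)] at h1
  exact h1

/-- Two large terms force a surprise. -/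
theorem surprise_two {p : ℝ} (hp0 : 0 ≤ p) (hp1 : p < 1) (A : Finset G) (v y : G) {τ κ : ℝ}
    (hκ : 0 < κ) (hτ : τ ≤ κ ^ 4) (hv1 : f p A v ≤ τ) (hv2 : f p A (2 • v) ≤ τ)
    (hsum : ∑' d : ℤ, min (p ^ (d.natAbs ^ 2)) κ ≤ 1 / 4) {c₁ c₂ : ℤ} (hne : c₁ ≠ c₂)
    (hclose : (c₂ - c₁).natAbs ≤ 2) (hb : bb p A v y c₁ ≤ bb p A v y c₂) :
    (3 / 2) * (bb p A v y c₁ * ∑' d, aa p A v d) ≤ ∑' d, bb p A v y d := by
  classical
  set Γ : Set ℤ := {d | κ < aa p A v d} with hΓ
  have haneg : ∀ d, aa p A v (-d) = aa p A v d := by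
    intro d
    unfold aa
    rw [Int.natAbs_neg, neg_smul, f_neg]
  have hΓs : ∀ d, d ∈ Γ → -d ∈ Γ := by
    intro d hd
    show κ < aa p A v (-d)
    rw [haneg]
    exact hd
  have haf : ∀ d, aa p A v d ≤ f p A (d • v) := by
    intro d
    unfold aa
    exact mul_le_of_le_one_left (f_nonneg _ _ _) (pow_le_one₀ hp0 hp1.le)
  have hap : ∀ d, aa p A v d ≤ p ^ (d.natAbs ^ 2) := by
    intro d
    unfold aa
    exact mul_le_of_le_one_right (by positivity) (f_le_one hp0 hp1 _ _)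
  -- the mass of Γ
  have hS := aa_summable hp0 hp1 A v
  have hmin : Summable fun d : ℤ => min (p ^ (d.natAbs ^ 2)) κ :=
    Summable.of_nonneg_of_le (fun d => le_min (by positivity) hκ.le) (fun d => min_le_left _ _)
      (summable_sq hp0 hp1)
  have h1 : ∑' d, Γᶜ.indicator (aa p A v) d ≤ 1 / 4 := by
    refine le_trans (Summable.tsum_le_tsum (fun d => ?_) (hS.indicator _) hmin) hsum
    by_cases hd : d ∈ Γ
    · rw [Set.indicator_of_notMem (by simpa using hd)]
      exact le_min (by positivity) hκ.le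
    · rw [Set.indicator_of_mem (by simpa using hd)]
      exact le_min (hap d) (not_lt.1 hd)
  have h2 : ∑' d, Γ.indicator (aa p A v) d + ∑' d, Γᶜ.indicator (aa p A v) d =
      ∑' d, aa p A v d := by
    rw [← (hS.indicator Γ).tsum_add (hS.indicator Γᶜ)]
    refine tsum_congr fun d => ?_
    exact Set.indicator_self_add_compl_apply Γ (aa p A v) d
  have h3 : 1 ≤ ∑' d, aa p A v d := by
    have h0 : aa p A v 0 = 1 := by
      unfold aa
      rw [zero_smul, f_zero hp0 hp1]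
      simp
    rw [← h0]
    exact hS.le_tsum 0 fun d _ => aa_nonneg hp0 A v d
  have h4 : (3 / 4) * ∑' d, aa p A v d ≤ ∑' d, Γ.indicator (aa p A v) d := by linarith
  -- the two shifted sums
  have g1 := shift_sum hp0 hp1 A v y c₁ Γ hΓs
  have g2 := shift_sum hp0 hp1 A v y c₂ Γ hΓs
  have hB := bb_summable hp0 hp1 A v y
  have k1 : ∀ c : ℤ, ∑' d, Γ.indicator (fun d => bb p A v y (c + d)) d =
      ∑' e, {e | e - c ∈ Γ}.indicator (bb p A v y) e := by
    intro c
    have h := (Equiv.addLeft c).tsum_eq ({e | e - c ∈ Γ}.indicator (bb p A v y))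
    rw [← h]
    refine tsum_congr fun d => ?_
    simp only [Equiv.coe_addLeft]
    by_cases hd : d ∈ Γ
    · rw [Set.indicator_of_mem hd, Set.indicator_of_mem]
      simpa using hd
    · rw [Set.indicator_of_notMem hd, Set.indicator_of_notMem]
      simpa using hd
  rw [k1] at g1 g2
  have hdisj : ∀ e : ℤ, e - c₁ ∈ Γ → e - c₂ ∈ Γ → False := by
    intro e he1 he2
    have l1 : κ < f p A ((e - c₁) • v) := lt_of_lt_of_le he1 (haf _)
    have l2 : κ < f p A ((e - c₂) • v) := lt_of_lt_of_le he2 (haf _)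
    have h5 := f_rs hp0 hp1 A ((e - c₁) • v) ((e - c₂) • v)
    have h6 : f p A ((e - c₁) • v - (e - c₂) • v) ≤ τ := by
      rw [← sub_smul, show e - c₁ - (e - c₂) = c₂ - c₁ by ring]
      have hc : c₂ - c₁ = 1 ∨ c₂ - c₁ = -1 ∨ c₂ - c₁ = 2 ∨ c₂ - c₁ = -2 := by omega
      rcases hc with h | h | h | h <;> rw [h]
      · simpa using hv1
      · simpa [f_neg] using hv1
      · rw [two_smul, ← two_nsmul]; exact hv2
      · rw [neg_smul, f_neg, two_smul, ← two_nsmul]; exact hv2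
    have h7 : f p A ((e - c₁) • v + (e - c₂) • v) ≤ 1 := f_le_one hp0 hp1 _ _
    have h8 : 0 ≤ f p A ((e - c₁) • v - (e - c₂) • v) := f_nonneg _ _ _
    have h9 : κ ^ 4 < f p A ((e - c₁) • v) ^ 2 * f p A ((e - c₂) • v) ^ 2 := by
      have m1 : κ ^ 2 < f p A ((e - c₁) • v) ^ 2 := by gcongr
      have m2 : κ ^ 2 < f p A ((e - c₂) • v) ^ 2 := by gcongr
      calc κ ^ 4 = κ ^ 2 * κ ^ 2 := by ring
        _ < _ := by gcongr
    nlinarith
  have h5 : ∑' e, {e | e - c₁ ∈ Γ}.indicator (bb p A v y) e +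
      ∑' e, {e | e - c₂ ∈ Γ}.indicator (bb p A v y) e ≤ ∑' d, bb p A v y d := by
    rw [← (hB.indicator _).tsum_add (hB.indicator _)]
    refine Summable.tsum_le_tsum (fun e => ?_) ((hB.indicator _).add (hB.indicator _)) hB
    have hb0 := bb_nonneg hp0 A v y e
    by_cases he1 : e - c₁ ∈ Γ
    · have he2 : ¬ (e - c₂ ∈ Γ) := fun h => hdisj e he1 h
      rw [Set.indicator_of_mem (show e ∈ {e | e - c₁ ∈ Γ} from he1),
        Set.indicator_of_notMem (show e ∉ {e | e - c₂ ∈ Γ} from he2), add_zero]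
    · rw [Set.indicator_of_notMem (show e ∉ {e | e - c₁ ∈ Γ} from he1), zero_add]
      by_cases he2 : e - c₂ ∈ Γ
      · rw [Set.indicator_of_mem (show e ∈ {e | e - c₂ ∈ Γ} from he2)]
      · rw [Set.indicator_of_notMem (show e ∉ {e | e - c₂ ∈ Γ} from he2)]
        exact hb0
  have hb1 := bb_nonneg hp0 A v y c₁
  set S := ∑' d, aa p A v d
  set SΓ := ∑' d, Γ.indicator (aa p A v) d
  have h6 : bb p A v y c₁ * SΓ ≤ bb p A v y c₂ * SΓ := by
    apply mul_le_mul_of_nonneg_right hb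
    linarith
  have h7 : bb p A v y c₁ * ((3 / 4) * S) ≤ bb p A v y c₁ * SΓ := by gcongr
  linarith

end Pool.Agent.GLL
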