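import Pool.Agent.GLL.GF
import Pool.Agent.NU.Def

/-!
# GH: weighted numbers of relations
-/

namespace Pool.Agent.GLL

open Pool.Agent.NU

variable {G : Type*} [AddCommGroup G]

/-- The sum of `t ^ (|C| + |D|)` over all pairs of disjoint subsets `C, D` of `A` with
`∑ C = ∑ D + y`. -/
noncomputable def rel (t : ℝ) (A : Finset G) (y : G) : ℝ := by
  classical
  exact ∑ C ∈ A.powerset, ∑ D ∈ A.powerset,
    if Disjoint C D ∧ ∑ x ∈ C, x = ∑ x ∈ D, x + y then t ^ (C.card + D.card) else 0

theorem rel_empty_zero (t : ℝ) : rel t (∅ : Finset G) 0 = 1 := by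
  unfold rel
  simp

theorem rel_empty_ne (t : ℝ) {y : G} (hy : y ≠ 0) : rel t (∅ : Finset G) y = 0 := by
  unfold rel
  simp [Ne.symm hy]

theorem rel_nonneg {t : ℝ} (ht : 0 ≤ t) (A : Finset G) (y : G) : 0 ≤ rel t A y := by
  unfold rel
  refine Finset.sum_nonneg fun C _ => Finset.sum_nonneg fun D _ => ?_
  split_ifs <;> positivity

theorem rel_insert [DecidableEq G] (t : ℝ) {v : G} {A : Finset G} (hv : v ∉ A) (y : G) :
    rel t (insert v A) y = rel t A y + t * rel t A (y - v) + t * rel t A (y + v) := by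
  classical
  unfold rel
  simp only [Finset.mul_sum]
  rw [Finset.sum_powerset_insert hv, ← Finset.sum_add_distrib, ← Finset.sum_add_distrib,
    ← Finset.sum_add_distrib]
  refine Finset.sum_congr rfl fun C hC => ?_
  have hvC : v ∉ C := fun h => hv (Finset.mem_powerset.1 hC h)
  rw [Finset.sum_powerset_insert hv, Finset.sum_powerset_insert hv, ← Finset.sum_add_distrib,
    ← Finset.sum_add_distrib, ← Finset.sum_add_distrib, ← Finset.sum_add_distrib,
    ← Finset.sum_add_distrib]
  refine Finset.sum_congr rfl fun D hD => ?_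
  have hvD : v ∉ D := fun h => hv (Finset.mem_powerset.1 hD h)
  rw [Finset.sum_insert hvC, Finset.sum_insert hvD]
  have e1 : (Disjoint C (insert v D) ∧ ∑ x ∈ C, x = v + ∑ x ∈ D, x + y) ↔
      (Disjoint C D ∧ ∑ x ∈ C, x = ∑ x ∈ D, x + (y + v)) := by
    rw [Finset.disjoint_insert_right]
    constructor
    · rintro ⟨⟨_, h1⟩, h2⟩
      exact ⟨h1, by rw [h2]; abel⟩
    · rintro ⟨h1, h2⟩
      exact ⟨⟨hvC, h1⟩, by rw [h2]; abel⟩
  have e2 : (Disjoint (insert v C) D ∧ v + ∑ x ∈ C, x = ∑ x ∈ D, x + y) ↔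
      (Disjoint C D ∧ ∑ x ∈ C, x = ∑ x ∈ D, x + (y - v)) := by
    rw [Finset.disjoint_insert_left]
    constructor
    · rintro ⟨⟨_, h1⟩, h2⟩
      exact ⟨h1, by rw [← add_sub_assoc, ← h2]; abel⟩
    · rintro ⟨h1, h2⟩
      exact ⟨⟨hvD, h1⟩, by rw [h2]; abel⟩
  have e3 : ¬ (Disjoint (insert v C) (insert v D) ∧ v + ∑ x ∈ C, x = v + ∑ x ∈ D, x + y) := by
    rintro ⟨h1, _⟩
    exact Finset.disjoint_left.1 h1 (Finset.mem_insert_self v C) (Finset.mem_insert_self v D)
  simp only [if_neg e3, e1, e2, Finset.card_insert_of_notMem hvC, Finset.card_insert_of_notMem hvD]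
  split_ifs <;> ring

/-- The average number of coincidences in a random subset. -/
theorem sum_rel_one (A : Finset G) (y : G) :
    ∑ S ∈ A.powerset, rel 1 S y = 2 ^ A.card * rel (1 / 2) A y := by
  classical
  induction A using Finset.induction_on generalizing y with
  | empty =>
    by_cases hy : y = 0
    · subst hy; simp [rel_empty_zero]
    · simp [rel_empty_ne _ hy]
  | insert v A hv ih =>
    rw [Finset.sum_powerset_insert hv, rel_insert _ hv, Finset.card_insert_of_notMem hv, pow_succ]
    have h1 : ∑ S ∈ A.powerset, rel 1 (insert v S) y =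
        ∑ S ∈ A.powerset, rel 1 S y + ∑ S ∈ A.powerset, rel 1 S (y - v) +
          ∑ S ∈ A.powerset, rel 1 S (y + v) := by
      rw [← Finset.sum_add_distrib, ← Finset.sum_add_distrib]
      refine Finset.sum_congr rfl fun S hS => ?_
      have hvS : v ∉ S := fun h => hv (Finset.mem_powerset.1 hS h)
      rw [rel_insert _ hvS]
      ring
    rw [h1, ih, ih, ih]
    ring

/-- A set without distinct sums has at least three coincidences. -/
theorem three_le_rel {B : Finset G} (h : ¬ DistinctSums B) : 3 ≤ rel 1 B 0 := by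
  classical
  unfold DistinctSums at h
  push Not at h
  obtain ⟨C, D, hC, hD, hs, hne⟩ := h
  set C' := C \ D with hC'
  set D' := D \ C with hD'
  have hs' : ∑ x ∈ C', x = ∑ x ∈ D', x := by
    have h1 := Finset.sum_sdiff_eq_sub (f := fun x : G => x) (Finset.inter_subset_left (s₁ := C) (s₂ := D))
    have h2 := Finset.sum_sdiff_eq_sub (f := fun x : G => x) (Finset.inter_subset_left (s₁ := D) (s₂ := C))
    rw [Finset.sdiff_inter_self_left] at h1 h2
    rw [hC', hD', h1, h2, Finset.inter_comm D C, hs]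
  have hdisj : Disjoint C' D' := by
    rw [Finset.disjoint_left]
    intro x hx hx'
    exact (Finset.mem_sdiff.1 hx).2 (Finset.mem_sdiff.1 hx').1
  have hne' : C' ≠ D' := by
    intro he
    apply hne
    have h1 : C' = ∅ := by
      have := hdisj
      rw [← he] at this
      exact disjoint_self.1 this
    have h2 : D' = ∅ := by rw [← he]; exact h1
    exact Finset.Subset.antisymm (Finset.sdiff_eq_empty_iff_subset.1 h1)
      (Finset.sdiff_eq_empty_iff_subset.1 h2)
  have hCB : C' ⊆ B := fun x hx => hC (Finset.mem_sdiff.1 hx).1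
  have hDB : D' ⊆ B := fun x hx => hD (Finset.mem_sdiff.1 hx).1
  have e : rel 1 B 0 = ((B.powerset ×ˢ B.powerset).filter fun P : Finset G × Finset G =>
      Disjoint P.1 P.2 ∧ ∑ x ∈ P.1, x = ∑ x ∈ P.2, x).card := by
    unfold rel
    rw [← Finset.sum_product', Finset.card_filter]
    push_cast
    refine Finset.sum_congr rfl fun P _ => ?_
    simp only [one_pow, add_zero]
  rw [e]
  have h3 : ({(∅, ∅), (C', D'), (D', C')} : Finset (Finset G × Finset G)) ⊆
      (B.powerset ×ˢ B.powerset).filter fun P : Finset G × Finset G =>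
      Disjoint P.1 P.2 ∧ ∑ x ∈ P.1, x = ∑ x ∈ P.2, x := by
    intro P hP
    simp only [Finset.mem_insert, Finset.mem_singleton] at hP
    rw [Finset.mem_filter, Finset.mem_product, Finset.mem_powerset, Finset.mem_powerset]
    rcases hP with rfl | rfl | rfl
    · simp
    · exact ⟨⟨hCB, hDB⟩, hdisj, hs'⟩
    · exact ⟨⟨hDB, hCB⟩, hdisj.symm, hs'.symm⟩
  have h4 : ({(∅, ∅), (C', D'), (D', C')} : Finset (Finset G × Finset G)).card = 3 := by
    rw [Finset.card_eq_three]
    refine ⟨_, _, _, ?_, ?_, ?_, rfl⟩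
    · intro h
      rw [Prod.mk.injEq] at h
      exact hne' (h.1.symm.trans h.2)
    · intro h
      rw [Prod.mk.injEq] at h
      exact hne' (h.2.symm.trans h.1)
    · intro h
      rw [Prod.mk.injEq] at h
      exact hne' h.1
  have h5 := Finset.card_le_card h3
  rw [h4] at h5
  exact_mod_cast h5

theorem one_le_rel (B : Finset G) : 1 ≤ rel 1 B 0 := by
  classical
  unfold rel
  have h1 : (1 : ℝ) = if Disjoint (∅ : Finset G) ∅ ∧ ∑ x ∈ (∅ : Finset G), x =
      ∑ x ∈ (∅ : Finset G), x + 0 then (1 : ℝ) ^ ((∅ : Finset G).card + (∅ : Finset G).card) else 0 := by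
    simp
  nth_rw 1 [h1]
  refine le_trans ?_ (Finset.single_le_sum (f := fun C => ∑ D ∈ B.powerset,
    if Disjoint C D ∧ ∑ x ∈ C, x = ∑ x ∈ D, x + 0 then (1 : ℝ) ^ (C.card + D.card) else 0)
    (fun C _ => Finset.sum_nonneg fun D _ => by split_ifs <;> positivity)
    (Finset.empty_mem_powerset B))
  exact Finset.single_le_sum (f := fun D => if Disjoint (∅ : Finset G) D ∧ ∑ x ∈ (∅ : Finset G), x =
    ∑ x ∈ D, x + 0 then (1 : ℝ) ^ ((∅ : Finset G).card + D.card) else 0)
    (fun D _ => by split_ifs <;> positivity) (Finset.empty_mem_powerset B)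

/-- Two colours suffice when there are few weighted relations. -/
theorem two_parts [DecidableEq G] (A : Finset G) (h : rel (1 / 2) A 0 < 2) :
    ∃ B ⊆ A, DistinctSums B ∧ DistinctSums (A \ B) := by
  classical
  have h1 : ∑ S ∈ A.powerset, (rel 1 S 0 + rel 1 (A \ S) 0) < ∑ S ∈ A.powerset, (4 : ℝ) := by
    rw [Finset.sum_add_distrib]
    have h2 : ∑ S ∈ A.powerset, rel 1 (A \ S) (0 : G) = ∑ S ∈ A.powerset, rel 1 S 0 := by
      refine Finset.sum_nbij' (fun S => A \ S) (fun S => A \ S) ?_ ?_ ?_ ?_ ?_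
      · intro S _; exact Finset.mem_powerset.2 Finset.sdiff_subset
      · intro S _; exact Finset.mem_powerset.2 Finset.sdiff_subset
      · intro S hS; exact Finset.sdiff_sdiff_eq_self (Finset.mem_powerset.1 hS)
      · intro S hS; exact Finset.sdiff_sdiff_eq_self (Finset.mem_powerset.1 hS)
      · intro S _; rfl
    rw [h2, sum_rel_one, Finset.sum_const, Finset.card_powerset, nsmul_eq_mul]
    have h3 : (0 : ℝ) < 2 ^ A.card := by positivity
    push_cast
    nlinarith
  obtain ⟨S, hS, hlt⟩ := Finset.exists_lt_of_sum_lt h1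
  refine ⟨S, Finset.mem_powerset.1 hS, ?_, ?_⟩
  · by_contra hcon
    have := three_le_rel hcon
    have := one_le_rel (A \ S)
    linarith
  · by_contra hcon
    have := three_le_rel hcon
    have := one_le_rel S
    linarith

/-- Counting relations in a set in which every nonempty subset has an element which is not
absorbed by the rest. -/
theorem rel_le [IsAddTorsionFree G] {q : ℝ} (hq0 : 0 ≤ q) (hq1 : q < 1) {θ : ℕ}
    (hθ : q ^ θ = 1 / 2) {τ κ : ℝ} (hκ : 0 < κ) (hτ : τ ≤ κ ^ 4)
    (hsum : ∑' d : ℤ, min (q ^ (d.natAbs ^ 2)) κ ≤ 1 / 4) (A : Finset G)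
    (hA : ∀ A' ⊆ A, A'.Nonempty → ∃ v ∈ A', ∀ B : Finset G, v ∉ B → B ⊆ A' →
      f q B v ≤ τ ∧ f q B (2 • v) ≤ τ) (y : G) :
    rel (1 / 2) A y ≤ (1 + 2 * (2 / 3) ^ θ) ^ A.card * f q A y ^ θ := by
  classical
  induction hn : A.card generalizing A y with
  | zero =>
    rw [Finset.card_eq_zero] at hn
    subst hn
    by_cases hy : y = 0
    · subst hy
      rw [rel_empty_zero, f_zero hq0 hq1]
      simp
    · rw [rel_empty_ne _ hy]
      have := f_nonneg q (∅ : Finset G) y
      positivity
  | succ n ih =>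
    have hne : A.Nonempty := by
      rw [← Finset.card_pos]; omega
    obtain ⟨v, hvA, hv⟩ := hA A (Finset.Subset.refl A) hne
    set A' := A.erase v with hA'
    have hvA' : v ∉ A' := Finset.notMem_erase v A
    have hAA' : A = insert v A' := (Finset.insert_erase hvA).symm
    obtain ⟨hv1, hv2⟩ := hv A' hvA' (Finset.erase_subset v A)
    have hcard : A'.card = n := by
      have := Finset.card_erase_of_mem hvA
      rw [← hA'] at this
      omega
    have ih' := fun y => ih A' (fun B hB => hA B (hB.trans (Finset.erase_subset v A))) y hcard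
    set M : ℝ := 1 + 2 * (2 / 3) ^ θ with hM
    have hM0 : 0 ≤ M := by positivity
    set F := f q A y with hF
    set S := ∑' d, aa q A' v d with hS
    have hFS : F * S = ∑' d, bb q A' v y d := by
      have := f_insert hq0 hq1 hvA' y
      rw [← hAA'] at this
      exact this
    have hS1 : 1 ≤ S := by
      have h0 : aa q A' v 0 = 1 := by
        unfold aa
        rw [zero_smul, f_zero hq0 hq1]
        simp
      rw [← h0]
      exact (aa_summable hq0 hq1 A' v).le_tsum 0 fun d _ => aa_nonneg hq0 A' v d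
    have hF0 : 0 ≤ F := f_nonneg _ _ _
    have hone : ∀ c, bb q A' v y c ≤ F := by
      intro c
      have h1 := surprise_one hq0 hq1 A' v y c
      rw [← hFS] at h1
      exact le_of_mul_le_mul_right h1 (by linarith)
    have htwo : ∀ c₁ c₂ : ℤ, c₁ ≠ c₂ → (c₂ - c₁).natAbs ≤ 2 → bb q A' v y c₁ ≤ bb q A' v y c₂ →
        bb q A' v y c₁ ≤ (2 / 3) * F := by
      intro c₁ c₂ hne hcl hb
      have h1 := surprise_two hq0 hq1 A' v y hκ hτ hv1 hv2 hsum hne hcl hb
      rw [← hFS] at h1
      have h2 : (3 / 2 * bb q A' v y c₁) * S ≤ F * S := by linarith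
      have h3 := le_of_mul_le_mul_right h2 (by linarith)
      linarith
    -- the three terms
    have hb := fun c => bb_nonneg hq0 A' v y c
    have hmax : bb q A' v y 0 ^ θ + bb q A' v y 1 ^ θ + bb q A' v y (-1) ^ θ ≤ M * F ^ θ := by
      have hp : ∀ c, bb q A' v y c ^ θ ≤ F ^ θ := fun c => pow_le_pow_left₀ (hb c) (hone c) θ
      have hq : ∀ c₁ c₂ : ℤ, c₁ ≠ c₂ → (c₂ - c₁).natAbs ≤ 2 →
          bb q A' v y c₁ ≤ bb q A' v y c₂ → bb q A' v y c₁ ^ θ ≤ (2 / 3) ^ θ * F ^ θ := by
        intro c₁ c₂ h1 h2 h3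
        rw [← mul_pow]
        exact pow_le_pow_left₀ (hb c₁) (htwo c₁ c₂ h1 h2 h3) θ
      have e : M * F ^ θ = F ^ θ + (2 / 3) ^ θ * F ^ θ + (2 / 3) ^ θ * F ^ θ := by
        rw [hM]; ring
      rw [e]
      rcases le_total (bb q A' v y 0) (bb q A' v y 1) with h01 | h01
      · rcases le_total (bb q A' v y 1) (bb q A' v y (-1)) with h12 | h12
        · have := hq 0 (-1) (by norm_num) (by norm_num) (h01.trans h12)
          have := hq 1 (-1) (by norm_num) (by norm_num) h12
          have := hp (-1)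
          linarith
        · have := hq 0 1 (by norm_num) (by norm_num) h01
          have := hq (-1) 1 (by norm_num) (by norm_num) h12
          have := hp 1
          linarith
      · rcases le_total (bb q A' v y 0) (bb q A' v y (-1)) with h02 | h02
        · have := hq 0 (-1) (by norm_num) (by norm_num) h02
          have := hq 1 (-1) (by norm_num) (by norm_num) (h01.trans h02)
          have := hp (-1)
          linarith
        · have := hq (-1) 0 (by norm_num) (by norm_num) h02
          have := hq 1 0 (by norm_num) (by norm_num) h01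
          have := hp 0
          linarith
    have b0 : bb q A' v y 0 ^ θ = f q A' y ^ θ := by
      unfold bb
      simp
    have b1 : bb q A' v y 1 ^ θ = (1 / 2) * f q A' (y - v) ^ θ := by
      unfold bb
      rw [mul_pow, ← hθ]
      simp
    have b2 : bb q A' v y (-1) ^ θ = (1 / 2) * f q A' (y + v) ^ θ := by
      unfold bb
      rw [mul_pow, ← hθ]
      simp
    rw [b0, b1, b2] at hmax
    rw [hAA', rel_insert _ hvA']
    have h1 := ih' y
    have h2 := ih' (y - v)
    have h3 := ih' (y + v)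
    calc rel (1 / 2) A' y + 1 / 2 * rel (1 / 2) A' (y - v) + 1 / 2 * rel (1 / 2) A' (y + v)
        ≤ M ^ n * (f q A' y ^ θ) + 1 / 2 * (M ^ n * f q A' (y - v) ^ θ) +
            1 / 2 * (M ^ n * f q A' (y + v) ^ θ) := by linarith
      _ = M ^ n * (f q A' y ^ θ + 1 / 2 * f q A' (y - v) ^ θ + 1 / 2 * f q A' (y + v) ^ θ) := by
          ring
      _ ≤ M ^ n * (M * F ^ θ) := by gcongr
      _ = M ^ (n + 1) * F ^ θ := by ring
      _ = _ := by rw [hF]

end Pool.Agent.GLL
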