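import Pool.Agent.GLL.GE
import Pool.Agent.GLL.GH

/-!
# GM: parameters and main theorem
-/

namespace Pool.Agent.GLL

open Pool.Agent.NU

theorem int_tsum_le {g : ℕ → ℝ} (hg0 : ∀ n, 0 ≤ g n) (hg : Summable g) :
    ∑' d : ℤ, g d.natAbs ≤ 2 * ∑' n, g n := by
  have hg1 : Summable fun n => g (n + 1) := (summable_nat_add_iff 1).2 hg
  have h := HasSum.of_nat_of_neg_add_one (f := fun d : ℤ => g d.natAbs) (m := ∑' n, g n)
    (m' := ∑' n, g (n + 1)) (by simpa using hg.hasSum) (by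
      have : (fun n : ℕ => g ((-((n : ℤ) + 1)).natAbs)) = fun n => g (n + 1) := by
        funext n
        congr 1
      simpa only [this] using hg1.hasSum)
  rw [h.tsum_eq, hg.tsum_eq_zero_add]
  have := hg0 0
  linarith

theorem sum_min {q : ℝ} (hq0 : 0 ≤ q) (hq1 : q < 1) {θ : ℕ} (hθ : q ^ θ = 1 / 2) (h4 : 4 ≤ θ) :
    ∑' d : ℤ, min (q ^ (d.natAbs ^ 2)) (1 / (16 * ((θ : ℝ) + 1))) ≤ 1 / 4 := by
  set κ : ℝ := 1 / (16 * ((θ : ℝ) + 1)) with hκ
  have hκ0 : 0 < κ := by positivity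
  set g : ℕ → ℝ := fun n => min (q ^ (n ^ 2)) κ with hg
  have hg0 : ∀ n, 0 ≤ g n := fun n => le_min (by positivity) hκ0.le
  have hgq : ∀ n, g n ≤ q ^ n := fun n =>
    (min_le_left _ _).trans (pow_le_pow_of_le_one hq0 hq1.le (Nat.le_self_pow (by norm_num) n))
  have hgs : Summable g :=
    Summable.of_nonneg_of_le hg0 hgq (summable_geometric_of_lt_one hq0 hq1)
  have h1 := int_tsum_le hg0 hgs
  refine h1.trans ?_
  have h2 := hgs.sum_add_tsum_nat_add (θ + 1)
  have h3 : ∑ i ∈ Finset.range (θ + 1), g i ≤ 1 / 16 := by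
    calc ∑ i ∈ Finset.range (θ + 1), g i ≤ ∑ i ∈ Finset.range (θ + 1), κ :=
          Finset.sum_le_sum fun i _ => min_le_right _ _
      _ = 1 / 16 := by
          rw [Finset.sum_const, Finset.card_range, nsmul_eq_mul, hκ]
          push_cast
          field_simp
  have h5 : ∑' i, g (i + (θ + 1)) ≤ 1 / 16 := by
    have hs : Summable fun i : ℕ => (1 / 2 : ℝ) ^ i * (1 / 2) ^ (θ + 1) :=
      (summable_geometric_of_lt_one (by norm_num) (by norm_num)).mul_right _
    calc ∑' i, g (i + (θ + 1)) ≤ ∑' i : ℕ, (1 / 2 : ℝ) ^ i * (1 / 2) ^ (θ + 1) := by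
          refine Summable.tsum_le_tsum (fun i => ?_) ((summable_nat_add_iff (θ + 1)).2 hgs) hs
          refine (min_le_left _ _).trans ?_
          calc q ^ ((i + (θ + 1)) ^ 2) ≤ q ^ (θ * (i + (θ + 1))) := by
                refine pow_le_pow_of_le_one hq0 hq1.le ?_
                nlinarith
            _ = (1 / 2) ^ (i + (θ + 1)) := by rw [pow_mul, hθ]
            _ = _ := by rw [pow_add]
      _ = 2 * (1 / 2) ^ (θ + 1) := by
          rw [tsum_mul_right, tsum_geometric_of_lt_one (by norm_num) (by norm_num)]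
          norm_num
      _ ≤ 2 * (1 / 2) ^ 5 := by
          gcongr ?_ * ?_
          exact pow_le_pow_of_le_one (by norm_num) (by norm_num) (by omega)
      _ ≤ 1 / 16 := by norm_num
  linarith

variable {G : Type*} [AddCommGroup G] [IsAddTorsionFree G]

theorem main_param {δ : ℝ} (hδ : 0 < δ) {Λ : Set G} (hΛ : Proportional δ Λ) {θ k K : ℕ}
    (hθ : 4 ≤ θ) (hk : (9 / 10 : ℝ) ^ (2 ^ k) ≤ (1 / (16 * ((θ : ℝ) + 1))) ^ 4)
    (hK : 2 * Real.log (4 * (θ * 2 ^ k)) / (δ * Real.log (9 / 5)) + 1 ≤ K) :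
    ∃ T : Fin (2 * K) → Set G, Λ = ⋃ i, T i ∧ ∀ i, ∀ A : Finset G, (↑A : Set G) ⊆ T i →
      rel (1 / 2) A 0 ≤ (1 + 2 * (2 / 3) ^ θ) ^ A.card := by
  classical
  set N : ℕ := θ * 2 ^ k with hN
  have hN0 : N ≠ 0 := by positivity
  have hθ0 : θ ≠ 0 := by omega
  set s : ℝ := (1 / 2 : ℝ) ^ ((1 : ℝ) / N) with hs
  have hs0 : 0 < s := Real.rpow_pos_of_pos (by norm_num) _
  have hsN : s ^ N = 1 / 2 := by
    rw [hs, ← Real.rpow_natCast, ← Real.rpow_mul (by norm_num), one_div_mul_cancel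
      (Nat.cast_ne_zero.2 hN0), Real.rpow_one]
  have hs1 : s < 1 := by
    rw [hs]
    exact Real.rpow_lt_one (by norm_num) (by norm_num) (by positivity)
  set q : ℝ := s ^ (2 ^ k) with hq
  have hq0 : 0 ≤ q := by positivity
  have hq1 : q < 1 := pow_lt_one₀ hs0.le hs1 (by positivity)
  have hqθ : q ^ θ = 1 / 2 := by
    rw [hq, ← pow_mul, mul_comm, ← hN, hsN]
  have hlog : 2 * Real.log (2 / (1 - s)) / (δ * Real.log (9 / 5)) + 1 ≤ K := by
    refine le_trans ?_ hK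
    have h1 : (2 : ℝ) / (1 - s) ≤ 4 * (θ * 2 ^ k) := by
      have h2 := one_add_mul_le_pow (a := s - 1) (by linarith) N
      rw [show 1 + (s - 1) = s by ring, hsN] at h2
      have h3 : (N : ℝ) = θ * 2 ^ k := by rw [hN]; push_cast; ring
      rw [← h3, div_le_iff₀ (by linarith)]
      linarith
    have h4 : 0 < δ * Real.log (9 / 5) := mul_pos hδ (Real.log_pos (by norm_num))
    have h5 : 0 < (2 : ℝ) / (1 - s) := div_pos (by norm_num) (by linarith)
    gcongr
  obtain ⟨T, hT1, hT2⟩ := colouring hs0.le hs1 hδ hΛ hlog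
  refine ⟨T, hT1, fun i A hA => ?_⟩
  have hκ0 : (0 : ℝ) < 1 / (16 * ((θ : ℝ) + 1)) := by positivity
  have h := rel_le hq0 hq1 hqθ hκ0 hk (sum_min hq0 hq1 hqθ hθ) A ?_ 0
  · rwa [f_zero hq0 hq1, one_pow, mul_one] at h
  · intro A' hA' hne
    obtain ⟨v, hv, hv'⟩ := hT2 i A' (fun x hx => hA (hA' hx)) hne
    refine ⟨v, hv, fun B hvB hB => ?_⟩
    have h1 := hv' B hvB hB
    unfold Absd at h1
    push Not at h1
    have key : ∀ w : G, f s B w < 9 / 10 → f q B w ≤ (9 / 10) ^ (2 ^ k) := by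
      intro w hw
      refine (f_pow_pow hs0.le hs1 B w k).trans ?_
      exact pow_le_pow_left₀ (f_nonneg _ _ _) hw.le _
    exact ⟨key _ h1.1, key _ h1.2⟩

/-- The number of parts. -/
noncomputable def numParts (δ : ℝ) (n : ℕ) : ℕ :=
  2 * (⌈32 * (1 + Real.log (1 + Real.log n)) / δ⌉₊ + 1)

theorem main {δ : ℝ} (hδ : 0 < δ) {Λ : Set G} (hΛ : Proportional δ Λ) {n : ℕ} (hn : 1 ≤ n) :
    ∃ T : Fin (numParts δ n) → Set G, Λ = ⋃ i, T i ∧ ∀ i, ∀ A : Finset G, (↑A : Set G) ⊆ T i →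
      rel (1 / 2) A 0 ≤ (1 + 1 / (2 * n)) ^ A.card ∧
      (A.card ≤ n → ∃ B C : Finset G, (A : Set G) = (B : Set G) ∪ (C : Set G) ∧ DistinctSums B ∧ DistinctSums C) := by
  classical
  have hn' : (1 : ℝ) ≤ n := by exact_mod_cast hn
  have hL : 0 ≤ Real.log n := Real.log_nonneg hn'
  set ℓ : ℝ := 1 + Real.log n with hℓ
  have hℓ1 : 1 ≤ ℓ := by linarith
  have hlℓ : 0 ≤ Real.log ℓ := Real.log_nonneg hℓ1
  set θ : ℕ := ⌈4 * ℓ⌉₊ with hθ
  have hθ1 : 4 * ℓ ≤ θ := Nat.le_ceil _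
  have hθ2 : (θ : ℝ) < 4 * ℓ + 1 := Nat.ceil_lt_add_one (by linarith)
  have hθ4 : 4 ≤ θ := by
    have : (4 : ℝ) ≤ θ := by linarith
    exact_mod_cast this
  -- the base
  have hbase : 4 * (n : ℝ) ≤ (3 / 2) ^ θ := by
    rw [← Real.log_le_log_iff (by positivity) (by positivity), Real.log_mul (by norm_num)
      (by positivity), Real.log_pow]
    have h1 : Real.log 4 ≤ 4 * Real.log (3 / 2) := by
      rw [show (4 : ℝ) * Real.log (3 / 2) = Real.log ((3 / 2) ^ 4) by rw [Real.log_pow]; norm_num]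
      exact Real.log_le_log (by norm_num) (by norm_num)
    have h2 : 1 ≤ 4 * Real.log (3 / 2) := by
      have := Real.one_sub_inv_le_log_of_pos (show (0 : ℝ) < 3 / 2 by norm_num)
      norm_num at this
      linarith
    have h3 : 0 ≤ Real.log (3 / 2) := by linarith
    calc Real.log 4 + Real.log n ≤ 4 * Real.log (3 / 2) + (4 * Real.log (3 / 2)) * Real.log n := by
          nlinarith
      _ = (4 * ℓ) * Real.log (3 / 2) := by rw [hℓ]; ring
      _ ≤ _ := by gcongr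
  have hM : 1 + 2 * (2 / 3 : ℝ) ^ θ ≤ 1 + 1 / (2 * n) := by
    have h1 : (2 / 3 : ℝ) ^ θ = ((3 / 2) ^ θ)⁻¹ := by
      rw [← inv_pow]; norm_num
    have h2 : ((3 / 2 : ℝ) ^ θ)⁻¹ ≤ (4 * (n : ℝ))⁻¹ := by
      apply inv_anti₀ (by positivity) hbase
    rw [h1]
    have h3 : 2 * (4 * (n : ℝ))⁻¹ = 1 / (2 * n) := by field_simp; norm_num
    linarith
  -- choice of k
  set x : ℝ := 40 * Real.log (16 * ((θ : ℝ) + 1)) with hx
  have hθr : (4 : ℝ) ≤ θ := by exact_mod_cast hθ4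
  have hlogle : Real.log (16 * ((θ : ℝ) + 1)) ≤ 5 * ℓ := by
    have h1 : 16 * ((θ : ℝ) + 1) ≤ 96 * ℓ := by linarith
    have h2 : Real.log (96 * ℓ) = Real.log 96 + Real.log ℓ :=
      Real.log_mul (by norm_num) (by positivity)
    have h3 : Real.log 96 ≤ 5 := by
      rw [Real.log_le_iff_le_exp (by norm_num)]
      have h4 : Real.exp 5 = Real.exp 1 ^ 5 := by
        rw [← Real.exp_nat_mul]; norm_num
      rw [h4]
      have h5 : (2.7 : ℝ) ≤ Real.exp 1 := by
        have := Real.exp_one_gt_d9; linarith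
      calc (96 : ℝ) ≤ 2.7 ^ 5 := by norm_num
        _ ≤ Real.exp 1 ^ 5 := by gcongr
    have h4 : Real.log ℓ ≤ ℓ - 1 := Real.log_le_sub_one_of_pos (by linarith)
    have h5 := Real.log_le_log (by positivity) h1
    linarith
  have hlog0 : 1 ≤ Real.log (16 * ((θ : ℝ) + 1)) := by
    rw [Real.le_log_iff_exp_le (by positivity)]
    have := Real.exp_one_lt_d9
    linarith
  have hx1 : 1 ≤ x := by linarith
  obtain ⟨k₀, hk1, hk2⟩ := exists_nat_pow_near hx1 (show (1 : ℝ) < 2 by norm_num)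
  set k := k₀ + 1 with hk
  have hk3 : (2 : ℝ) ^ k ≤ 2 * x := by
    rw [hk, pow_succ]; linarith
  have hkk : (9 / 10 : ℝ) ^ (2 ^ k) ≤ (1 / (16 * ((θ : ℝ) + 1))) ^ 4 := by
    rw [← Real.log_le_log_iff (by positivity) (by positivity), Real.log_pow, Real.log_pow,
      one_div, Real.log_inv]
    have h1 : Real.log (9 / 10) ≤ -(1 / 10) := by
      have := Real.log_le_sub_one_of_pos (show (0 : ℝ) < 9 / 10 by norm_num)
      linarith
    push_cast
    nlinarith
  -- number of parts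
  set K : ℕ := ⌈32 * (1 + Real.log ℓ) / δ⌉₊ + 1 with hKdef
  have hK : 2 * Real.log (4 * (θ * 2 ^ k)) / (δ * Real.log (9 / 5)) + 1 ≤ K := by
    have h1 : 2 * Real.log (4 * (θ * 2 ^ k)) / (δ * Real.log (9 / 5)) ≤
        32 * (1 + Real.log ℓ) / δ := by
      have hl : 0 < Real.log (9 / 5) := Real.log_pos (by norm_num)
      have h2 : 2 * Real.log (4 * (θ * 2 ^ k)) ≤ 32 * (1 + Real.log ℓ) * Real.log (9 / 5) := by
        have h3 : (θ : ℝ) * 2 ^ k ≤ 2000 * ℓ ^ 2 := by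
          have h4 : (2 : ℝ) ^ k ≤ 400 * ℓ := by linarith
          calc (θ : ℝ) * 2 ^ k ≤ (5 * ℓ) * (400 * ℓ) := by
                gcongr
                linarith
            _ = 2000 * ℓ ^ 2 := by ring
        have h5 : 4 * ((θ : ℝ) * 2 ^ k) ≤ (9 / 5) ^ 16 * ℓ ^ 2 := by
          have h6 : (8000 : ℝ) ≤ (9 / 5) ^ 16 := by norm_num
          have h7 : 0 ≤ ℓ ^ 2 := by positivity
          nlinarith
        have h8 := Real.log_le_log (by positivity) h5
        rw [Real.log_mul (x := (9 / 5) ^ 16) (by positivity) (by positivity), Real.log_pow,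
          Real.log_pow] at h8
        have h9 : (4 / 9 : ℝ) ≤ Real.log (9 / 5) := by
          have := Real.one_sub_inv_le_log_of_pos (show (0 : ℝ) < 9 / 5 by norm_num)
          norm_num at this
          linarith
        push_cast at h8
        nlinarith
      rw [div_le_div_iff₀ (mul_pos hδ hl) hδ]
      nlinarith
    have h2 := Nat.le_ceil (32 * (1 + Real.log ℓ) / δ)
    rw [hKdef]
    push_cast
    linarith
  obtain ⟨T, hT1, hT2⟩ := main_param hδ hΛ hθ4 hkk hK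
  refine ⟨T, hT1, fun i A hA => ?_⟩
  have h1 : rel (1 / 2) A 0 ≤ (1 + 1 / (2 * n)) ^ A.card :=
    (hT2 i A hA).trans (by gcongr)
  refine ⟨h1, fun hAn => ?_⟩
  have h2 : rel (1 / 2) A 0 < 2 := by
    refine lt_of_le_of_lt h1 ?_
    have h3 : (1 + 1 / (2 * (n : ℝ))) ^ A.card ≤ Real.exp (1 / 2) := by
      calc (1 + 1 / (2 * (n : ℝ))) ^ A.card ≤ (1 + 1 / (2 * (n : ℝ))) ^ n := by
            refine pow_le_pow_right₀ ?_ hAn
            have : 0 ≤ 1 / (2 * (n : ℝ)) := by positivity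
            linarith
        _ ≤ (Real.exp (1 / (2 * (n : ℝ)))) ^ n := by
            gcongr
            linarith [Real.add_one_le_exp (1 / (2 * (n : ℝ)))]
        _ = Real.exp (1 / 2) := by
            rw [← Real.exp_nat_mul]
            congr 1
            field_simp
    have h4 : Real.exp (1 / 2) < 2 := by
      have h5 : Real.exp (1 / 2) ^ 2 = Real.exp 1 := by
        rw [← Real.exp_nat_mul]; norm_num
      have h6 := Real.exp_one_lt_d9
      nlinarith [Real.exp_pos (1 / 2)]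
    linarith
  obtain ⟨B, hBA, hB, hC⟩ := two_parts A h2
  refine ⟨B, A \ B, ?_, hB, hC⟩
  rw [← Finset.coe_union, Finset.union_sdiff_of_subset hBA]

end Pool.Agent.GLL
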